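import Mathlib

/-!
Line bundles, ampleness, the tangent sheaf, and morphisms from a line bundle to the tangent sheaf.
-/

open AlgebraicGeometry CategoryTheory

namespace Run7.h100.QT

/-- the ring of functions on the open subset `U` of the scheme `X` -/
def Fn (X : Scheme.{0}) (U : X.Opens) : Type := Γ(X, U)

noncomputable instance (X : Scheme.{0}) (U : X.Opens) : CommRing (Fn X U) :=
  CommRingCat.commRing Γ(X, U)

/-- restriction of functions from an open set `U` to a smaller open set `V` -/
noncomputable def rs {X : Scheme.{0}} {U V : X.Opens} (h : V ≤ U) : Fn X U →+* Fn X V :=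
  (X.presheaf.map (homOfLE h).op).hom

theorem rs_rs {X : Scheme.{0}} {U V W : X.Opens} (h : V ≤ U) (h' : W ≤ V) (f : Fn X U) :
    rs h' (rs h f) = rs (h'.trans h) f := by
  change (X.presheaf.map (homOfLE h').op).hom ((X.presheaf.map (homOfLE h).op).hom f) =
    (X.presheaf.map (homOfLE (h'.trans h)).op).hom f
  rw [← CommRingCat.comp_apply, ← X.presheaf.map_comp]
  rfl

theorem rs_self {X : Scheme.{0}} {U : X.Opens} (h : U ≤ U) (f : Fn X U) : rs h f = f := by
  change (X.presheaf.map (homOfLE h).op).hom f = f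
  have : (homOfLE h).op = 𝟙 _ := rfl
  rw [this, X.presheaf.map_id]
  rfl

/-- the elements of `k` as functions on the open subset `U` of the `k`-scheme `X` -/
noncomputable def cst {k : Type} [Field k] {X : Scheme.{0}} (s : X ⟶ Spec (.of k)) (U : X.Opens) :
    k →+* Fn X U :=
  (rs (le_top : U ≤ ⊤)).comp ((Scheme.ΓSpecIso (.of k)).inv ≫ s.appTop).hom

theorem rs_cst {k : Type} [Field k] {X : Scheme.{0}} (s : X ⟶ Spec (.of k)) {U V : X.Opens}
    (h : V ≤ U) (a : k) : rs h (cst s U a) = cst s V a := by
  unfold cst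
  rw [RingHom.comp_apply, rs_rs]
  rfl

/-- A section over the open set `V` of the tangent sheaf `T_X = Der_k (O_X, O_X)` of the
`k`-scheme `X`: a `k`-derivation of the sheaf of functions on `V`, that is a derivation of the
ring of functions on every open subset `W` of `V`, compatibly with restrictions. -/
structure TField {k : Type} [Field k] {X : Scheme.{0}} (s : X ⟶ Spec (.of k)) (V : X.Opens) where
  /-- the derivation on the open subset `W` of `V` -/
  D : ∀ W : X.Opens, W ≤ V → Fn X W → Fn X W
  map_add : ∀ (W : X.Opens) (hW : W ≤ V) (f g : Fn X W), D W hW (f + g) = D W hW f + D W hW g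
  map_mul : ∀ (W : X.Opens) (hW : W ≤ V) (f g : Fn X W),
    D W hW (f * g) = f * D W hW g + g * D W hW f
  map_cst : ∀ (W : X.Opens) (hW : W ≤ V) (a : k), D W hW (cst s W a) = 0
  map_res : ∀ (W : X.Opens) (hW : W ≤ V) (W' : X.Opens) (hW' : W' ≤ W) (f : Fn X W),
    rs hW' (D W hW f) = D W' (hW'.trans hW) (rs hW' f)

/-- A line bundle on `X`, given by an open covering `U i` and transition functions `g i j` on
`U i ⊓ U j` with `g i i = 1` and `g i j * g j k = g i k` wherever all three are defined. -/
structure LB (X : Scheme.{0}) where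
  /-- index set of the covering -/
  ι : Type
  /-- the open sets of the covering -/
  U : ι → X.Opens
  cov : ∀ x : X, ∃ i, x ∈ U i
  /-- the transition functions -/
  g : ∀ i j, Fn X (U i ⊓ U j)
  g_self : ∀ i, g i i = 1
  g_mul : ∀ (i j l : ι) (W : X.Opens) (hi : W ≤ U i) (hj : W ≤ U j) (hl : W ≤ U l),
    rs (le_inf hi hj) (g i j) * rs (le_inf hj hl) (g j l) = rs (le_inf hi hl) (g i l)

/-- A section over the open set `V` of the `n`-th tensor power of the line bundle `L`: functions
`s i` on `V ⊓ U i` with `s i = (g i j) ^ n * s j` wherever all are defined. -/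
structure LB.Sec {X : Scheme.{0}} (L : LB X) (n : ℕ) (V : X.Opens) where
  /-- the local functions -/
  s : ∀ i, Fn X (V ⊓ L.U i)
  compat : ∀ (i j : L.ι) (W : X.Opens) (hV : W ≤ V) (hi : W ≤ L.U i) (hj : W ≤ L.U j),
    rs (le_inf hV hi) (s i) = (rs (le_inf hi hj) (L.g i j)) ^ n * rs (le_inf hV hj) (s j)

/-- the open set on which the section `a` does not vanish -/
noncomputable def LB.Sec.nonvan {X : Scheme.{0}} {L : LB X} {n : ℕ} {V : X.Opens}
    (a : L.Sec n V) : X.Opens := ⨆ i, X.basicOpen (a.s i : Γ(X, V ⊓ L.U i))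

/-- The line bundle `L` on `X` is ample: `X` is quasi-compact, and every point has a neighbourhood
which is affine and is the non-vanishing set of a global section of a positive power of `L`. -/
def LB.IsAmple {X : Scheme.{0}} (L : LB X) : Prop :=
  CompactSpace X ∧ ∀ x : X, ∃ n : ℕ, 1 ≤ n ∧ ∃ a : L.Sec n ⊤,
    x ∈ a.nonvan ∧ IsAffineOpen a.nonvan

/-- A morphism of sheaves of modules over the sheaf of functions from the line bundle `L` on the
`k`-scheme `X` to the tangent sheaf `T_X`. -/
structure LB.MapT {k : Type} [Field k] {X : Scheme.{0}} (s : X ⟶ Spec (.of k)) (L : LB X) where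
  /-- the map on sections over the open set `V` -/
  φ : ∀ V : X.Opens, L.Sec 1 V → TField s V
  /-- if `c = a + b` then `φ c = φ a + φ b` -/
  map_add : ∀ (V : X.Opens) (a b c : L.Sec 1 V), (∀ i, c.s i = a.s i + b.s i) →
    ∀ (W : X.Opens) (hW : W ≤ V) (f : Fn X W),
      (φ V c).D W hW f = (φ V a).D W hW f + (φ V b).D W hW f
  /-- if `c = r * a` for a function `r` on `V` then `φ c = r * φ a` -/
  map_smul : ∀ (V : X.Opens) (r : Fn X V) (a c : L.Sec 1 V),
    (∀ i, c.s i = rs inf_le_left r * a.s i) →
    ∀ (W : X.Opens) (hW : W ≤ V) (f : Fn X W),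
      (φ V c).D W hW f = rs hW r * (φ V a).D W hW f
  /-- if `c` is the restriction of `a` to `V'` then `φ c` is the restriction of `φ a` -/
  map_res : ∀ (V V' : X.Opens) (h : V' ≤ V) (a : L.Sec 1 V) (c : L.Sec 1 V'),
    (∀ i, c.s i = rs (inf_le_inf_right _ h) (a.s i)) →
    ∀ (W : X.Opens) (hW : W ≤ V') (f : Fn X W),
      (φ V' c).D W hW f = (φ V a).D W (hW.trans h) f

/-- the morphism is not zero -/
def LB.MapT.NonZero {k : Type} [Field k] {X : Scheme.{0}} {s : X ⟶ Spec (.of k)} {L : LB X}
    (Φ : L.MapT s) : Prop :=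
  ∃ (V : X.Opens) (a : L.Sec 1 V) (W : X.Opens) (hW : W ≤ V) (f : Fn X W),
    (Φ.φ V a).D W hW f ≠ 0

end Run7.h100.QT
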