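import Mathlib
import Pool.Agent.Run7.h100.QT.Defs

/-!
Sections of the structure sheaf of an integral scheme inside the function field.
-/

open AlgebraicGeometry CategoryTheory TopologicalSpace

namespace Run7.h100.QT

variable {X : Scheme.{0}} [IsIntegral X]

/-- a function on a nonempty open set as an element of the function field -/
noncomputable def gm (W : X.Opens) (h : ∃ x : X, x ∈ W) : Fn X W →+* X.functionField :=
  haveI : Nonempty W := ⟨⟨h.choose, h.choose_spec⟩⟩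
  (X.germToFunctionField W).hom

theorem gm_injective (W : X.Opens) (h : ∃ x : X, x ∈ W) : Function.Injective (gm W h) := by
  have : Nonempty W := ⟨⟨h.choose, h.choose_spec⟩⟩
  exact X.germToFunctionField_injective W

theorem gm_rs {W W' : X.Opens} (hle : W' ≤ W) (h' : ∃ x : X, x ∈ W') (h : ∃ x : X, x ∈ W)
    (f : Fn X W) : gm W' h' (rs hle f) = gm W h f := by
  have : Nonempty W := ⟨⟨h.choose, h.choose_spec⟩⟩
  have : Nonempty W' := ⟨⟨h'.choose, h'.choose_spec⟩⟩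
  exact X.presheaf.germ_res_apply (homOfLE hle) _ _ f

theorem exists_mem_inf {W W' : X.Opens} (h : ∃ x : X, x ∈ W) (h' : ∃ x : X, x ∈ W') :
    ∃ x : X, x ∈ W ⊓ W' := by
  have := nonempty_preirreducible_inter W.isOpen W'.isOpen h h'
  exact this

/-- gluing inside the function field -/
theorem glue (W : X.Opens) (hW : ∃ x : X, x ∈ W) (e : X.functionField)
    (h : ∀ x ∈ W, ∃ (W' : X.Opens) (hx : x ∈ W') (g : Fn X W'), gm W' ⟨x, hx⟩ g = e) :
    ∃ g : Fn X W, gm W hW g = e := by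
  choose U hU g hg using h
  let V : W → X.Opens := fun x => W ⊓ U x.1 x.2
  have hV : ∀ x : W, ∃ y : X, y ∈ V x := fun x => ⟨x.1, x.2, hU x.1 x.2⟩
  let sf : ∀ x : W, Fn X (V x) := fun x => rs inf_le_right (g x.1 x.2)
  have hsf : ∀ x : W, gm (V x) (hV x) (sf x) = e := by
    intro x
    rw [gm_rs inf_le_right (hV x) ⟨x.1, hU x.1 x.2⟩, hg]
  have hcompat : TopCat.Presheaf.IsCompatible X.sheaf.1 V sf := by
    intro x y
    have h1 := exists_mem_inf (hV x) (hV y)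
    have e1 : rs (inf_le_left : V x ⊓ V y ≤ V x) (sf x) = rs inf_le_right (sf y) := by
      apply gm_injective _ h1
      rw [gm_rs _ h1 (hV x), gm_rs _ h1 (hV y), hsf, hsf]
    exact e1
  obtain ⟨t, ht, _⟩ := X.sheaf.existsUnique_gluing' (U := V) W (fun x => homOfLE inf_le_left) (by
    intro x hx
    rw [Opens.mem_iSup]
    exact ⟨⟨x, hx⟩, hx, hU x hx⟩) sf hcompat
  refine ⟨t, ?_⟩
  obtain ⟨x, hx⟩ := hW
  have h1 : rs (inf_le_left : V ⟨x, hx⟩ ≤ W) t = sf ⟨x, hx⟩ := ht ⟨x, hx⟩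
  rw [← gm_rs (inf_le_left : V ⟨x, hx⟩ ≤ W) (hV ⟨x, hx⟩), h1, hsf]

/-- regular elements of the function field at a point -/
def Rg (x : X) (e : X.functionField) : Prop :=
  ∃ (W : X.Opens) (hx : x ∈ W) (g : Fn X W), gm W ⟨x, hx⟩ g = e

theorem Rg.of (W : X.Opens) (h : ∃ x : X, x ∈ W) (g : Fn X W) {x : X} (hx : x ∈ W) :
    Rg x (gm W h g) := ⟨W, hx, g, rfl⟩

theorem Rg.add {x : X} {e e' : X.functionField} (h : Rg x e) (h' : Rg x e') : Rg x (e + e') := by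
  obtain ⟨W, hx, g, rfl⟩ := h
  obtain ⟨W', hx', g', rfl⟩ := h'
  refine ⟨W ⊓ W', ⟨hx, hx'⟩, rs inf_le_left g + rs inf_le_right g', ?_⟩
  rw [map_add, gm_rs _ _ ⟨x, hx⟩, gm_rs _ _ ⟨x, hx'⟩]

theorem Rg.mul {x : X} {e e' : X.functionField} (h : Rg x e) (h' : Rg x e') : Rg x (e * e') := by
  obtain ⟨W, hx, g, rfl⟩ := h
  obtain ⟨W', hx', g', rfl⟩ := h'
  refine ⟨W ⊓ W', ⟨hx, hx'⟩, rs inf_le_left g * rs inf_le_right g', ?_⟩
  rw [map_mul, gm_rs _ _ ⟨x, hx⟩, gm_rs _ _ ⟨x, hx'⟩]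

theorem Rg.neg {x : X} {e : X.functionField} (h : Rg x e) : Rg x (-e) := by
  obtain ⟨W, hx, g, rfl⟩ := h
  exact ⟨W, hx, -g, map_neg _ _⟩

/-- the inverse of a function which does not vanish at `x` -/
theorem Rg.inv {W : X.Opens} (h : ∃ x : X, x ∈ W) (g : Fn X W) {x : X} (hx : x ∈ X.basicOpen g) :
    Rg x (gm W h g)⁻¹ := by
  have hle : X.basicOpen g ≤ W := X.basicOpen_le g
  have hu : IsUnit (rs hle g) := X.toRingedSpace.isUnit_res_basicOpen g
  obtain ⟨u, hu⟩ := hu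
  refine ⟨X.basicOpen g, hx, ((u⁻¹ : (Fn X (X.basicOpen g))ˣ) : Fn X (X.basicOpen g)), ?_⟩
  have h1 : gm (X.basicOpen g) ⟨x, hx⟩ (rs hle g) = gm W h g := gm_rs _ _ _ _
  rw [← h1, ← hu]
  apply eq_inv_of_mul_eq_one_left
  rw [← map_mul, Units.inv_mul, map_one]

/-- local fractions -/
theorem Rg.exists_frac {U : X.Opens} (hU : IsAffineOpen U) {x : X} (hxU : x ∈ U)
    {e : X.functionField} (h : Rg x e) : ∃ a b : Fn X U, x ∈ X.basicOpen b ∧
      gm U ⟨x, hxU⟩ b * e = gm U ⟨x, hxU⟩ a := by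
  obtain ⟨W, hx, g, rfl⟩ := h
  obtain ⟨b, hb1, hb2⟩ := hU.exists_basicOpen_le ⟨x, hx⟩ hxU
  have := hU.isLocalization_basicOpen b
  obtain ⟨⟨a, s⟩, ha⟩ := IsLocalization.surj (S := Γ(X, X.basicOpen b))
    (Submonoid.powers (b : Γ(X, U))) (rs hb1 g)
  obtain ⟨_, n, rfl⟩ := s
  refine ⟨a, b ^ n, ?_, ?_⟩
  · by_cases hn : n = 0
    · subst hn
      rw [pow_zero]
      rw [X.basicOpen_one]; exact hxU
    · rw [X.basicOpen_pow b (Nat.pos_of_ne_zero hn)]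
      exact hb2
  · have hle : X.basicOpen b ≤ U := X.basicOpen_le b
    have h2 : rs hb1 g * rs hle (b ^ n) = rs hle a := ha
    have h3 := congrArg (gm (X.basicOpen b) ⟨x, hb2⟩) h2
    rw [map_mul, gm_rs _ _ ⟨x, hx⟩, gm_rs _ _ ⟨x, hxU⟩, gm_rs _ _ ⟨x, hxU⟩] at h3
    rw [mul_comm]; exact h3

end Run7.h100.QT
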