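import Mathlib
import Pool.Agent.Run7.h100.QT.FF

/-!
Morphisms from a line bundle to the tangent sheaf of an integral scheme, from a derivation of the
function field.
-/

open AlgebraicGeometry CategoryTheory TopologicalSpace

namespace Run7.h100.QT

theorem subsingleton_of_empty {X : Scheme.{0}} (W : X.Opens) (h : ¬ ∃ x : X, x ∈ W) :
    Subsingleton (Fn X W) := by
  have hW : W = ⊥ := by
    ext x
    simp only [SetLike.mem_coe, Opens.coe_bot, Set.mem_empty_iff_false, iff_false]
    intro hx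
    exact h ⟨x, hx⟩
  subst hW
  exact inferInstanceAs (Subsingleton Γ(X, (⊥ : X.Opens)))

variable {k : Type} [Field k] {X : Scheme.{0}} [IsIntegral X] (s : X ⟶ Spec (.of k)) (L : LB X)

/-- the coefficient of a section in the function field -/
noncomputable def co (i0 : L.ι) (h0 : ∃ x : X, x ∈ L.U i0) {V : X.Opens} (hV : ∃ x : X, x ∈ V)
    (a : L.Sec 1 V) : X.functionField :=
  gm (V ⊓ L.U i0) (exists_mem_inf hV h0) (a.s i0)

/-- data of a twisted vector field in the function field -/
structure VData where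
  i0 : L.ι
  h0 : ∃ x : X, x ∈ L.U i0
  δ : X.functionField → X.functionField
  add : ∀ e e', δ (e + e') = δ e + δ e'
  mul : ∀ e e', δ (e * e') = e * δ e' + e' * δ e
  cst0 : ∀ (W : X.Opens) (hW : ∃ x : X, x ∈ W) (a : k), δ (gm W hW (cst s W a)) = 0
  reg : ∀ (V : X.Opens) (hV : ∃ x : X, x ∈ V) (a : L.Sec 1 V) (x : X), x ∈ V → ∀ e, Rg x e →
    Rg x (co L i0 h0 hV a * δ e)

variable {s L}

namespace VData

variable (Δ : VData s L)

theorem exists_val {V : X.Opens} (a : L.Sec 1 V) {W : X.Opens} (hW : W ≤ V) (hne : ∃ x : X, x ∈ W)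
    (f : Fn X W) : ∃ g : Fn X W, gm W hne g =
      co L Δ.i0 Δ.h0 ⟨hne.choose, hW hne.choose_spec⟩ a * Δ.δ (gm W hne f) := by
  apply glue
  intro x hx
  exact Δ.reg V ⟨hne.choose, hW hne.choose_spec⟩ a x (hW hx) _ ⟨W, hx, f, rfl⟩

open Classical in
/-- the value of the vector field -/
noncomputable def val {V : X.Opens} (a : L.Sec 1 V) (W : X.Opens) (hW : W ≤ V) (f : Fn X W) :
    Fn X W :=
  if hne : ∃ x : X, x ∈ W then (Δ.exists_val a hW hne f).choose else 0

theorem gm_val {V : X.Opens} (a : L.Sec 1 V) {W : X.Opens} (hW : W ≤ V) (hne : ∃ x : X, x ∈ W)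
    (hV : ∃ x : X, x ∈ V) (f : Fn X W) :
    gm W hne (Δ.val a W hW f) = co L Δ.i0 Δ.h0 hV a * Δ.δ (gm W hne f) := by
  unfold val
  rw [dif_pos hne]
  exact (Δ.exists_val a hW hne f).choose_spec

/-- the section of the tangent sheaf -/
noncomputable def field {V : X.Opens} (a : L.Sec 1 V) : TField s V where
  D W hW f := Δ.val a W hW f
  map_add W hW f g := by
    by_cases hne : ∃ x : X, x ∈ W
    · have hV : ∃ x : X, x ∈ V := ⟨hne.choose, hW hne.choose_spec⟩
      apply gm_injective W hne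
      rw [map_add, Δ.gm_val a hW hne hV, Δ.gm_val a hW hne hV, Δ.gm_val a hW hne hV, map_add,
        Δ.add, mul_add]
    · have := subsingleton_of_empty W hne
      exact Subsingleton.elim _ _
  map_mul W hW f g := by
    by_cases hne : ∃ x : X, x ∈ W
    · have hV : ∃ x : X, x ∈ V := ⟨hne.choose, hW hne.choose_spec⟩
      apply gm_injective W hne
      rw [map_add, map_mul, map_mul, Δ.gm_val a hW hne hV, Δ.gm_val a hW hne hV,
        Δ.gm_val a hW hne hV, map_mul, Δ.mul]
      ring
    · have := subsingleton_of_empty W hne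
      exact Subsingleton.elim _ _
  map_cst W hW c := by
    by_cases hne : ∃ x : X, x ∈ W
    · have hV : ∃ x : X, x ∈ V := ⟨hne.choose, hW hne.choose_spec⟩
      apply gm_injective W hne
      rw [Δ.gm_val a hW hne hV, Δ.cst0, mul_zero, map_zero]
    · have := subsingleton_of_empty W hne
      exact Subsingleton.elim _ _
  map_res W hW W' hW' f := by
    by_cases hne' : ∃ x : X, x ∈ W'
    · have hne : ∃ x : X, x ∈ W := ⟨hne'.choose, hW' hne'.choose_spec⟩
      have hV : ∃ x : X, x ∈ V := ⟨hne.choose, hW hne.choose_spec⟩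
      apply gm_injective W' hne'
      rw [gm_rs hW' hne' hne, Δ.gm_val a hW hne hV, Δ.gm_val a (hW'.trans hW) hne' hV,
        gm_rs hW' hne' hne]
    · have := subsingleton_of_empty W' hne'
      exact Subsingleton.elim _ _

theorem gm_field {V : X.Opens} (a : L.Sec 1 V) {W : X.Opens} (hW : W ≤ V) (hne : ∃ x : X, x ∈ W)
    (hV : ∃ x : X, x ∈ V) (f : Fn X W) :
    gm W hne ((Δ.field a).D W hW f) = co L Δ.i0 Δ.h0 hV a * Δ.δ (gm W hne f) :=
  Δ.gm_val a hW hne hV f

/-- the morphism from the line bundle to the tangent sheaf -/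
noncomputable def mapT : L.MapT s where
  φ V a := Δ.field a
  map_add V a b c hc W hW f := by
    by_cases hne : ∃ x : X, x ∈ W
    · have hV : ∃ x : X, x ∈ V := ⟨hne.choose, hW hne.choose_spec⟩
      apply gm_injective W hne
      rw [map_add, Δ.gm_field _ hW hne hV, Δ.gm_field _ hW hne hV, Δ.gm_field _ hW hne hV]
      have : co L Δ.i0 Δ.h0 hV c = co L Δ.i0 Δ.h0 hV a + co L Δ.i0 Δ.h0 hV b := by
        unfold co
        rw [hc, map_add]
      rw [this, add_mul]
    · have := subsingleton_of_empty W hne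
      exact Subsingleton.elim _ _
  map_smul V r a c hc W hW f := by
    by_cases hne : ∃ x : X, x ∈ W
    · have hV : ∃ x : X, x ∈ V := ⟨hne.choose, hW hne.choose_spec⟩
      apply gm_injective W hne
      rw [map_mul, Δ.gm_field _ hW hne hV, Δ.gm_field _ hW hne hV]
      have : co L Δ.i0 Δ.h0 hV c = gm V hV r * co L Δ.i0 Δ.h0 hV a := by
        unfold co
        rw [hc, ← gm_rs (inf_le_left : V ⊓ L.U Δ.i0 ≤ V) (exists_mem_inf hV Δ.h0) hV r, ← map_mul]
      rw [this, gm_rs hW hne hV, mul_assoc]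
    · have := subsingleton_of_empty W hne
      exact Subsingleton.elim _ _
  map_res V V' h a c hc W hW f := by
    by_cases hne : ∃ x : X, x ∈ W
    · have hV' : ∃ x : X, x ∈ V' := ⟨hne.choose, hW hne.choose_spec⟩
      have hV : ∃ x : X, x ∈ V := ⟨hne.choose, h (hW hne.choose_spec)⟩
      apply gm_injective W hne
      rw [Δ.gm_field _ hW hne hV', Δ.gm_field _ (hW.trans h) hne hV]
      have : co L Δ.i0 Δ.h0 hV' c = co L Δ.i0 Δ.h0 hV a := by
        unfold co
        rw [hc]
        exact gm_rs _ _ (exists_mem_inf hV Δ.h0) _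
      rw [this]
    · have := subsingleton_of_empty W hne
      exact Subsingleton.elim _ _

theorem mapT_nonZero {V : X.Opens} (hV : ∃ x : X, x ∈ V) (a : L.Sec 1 V)
    (ha : co L Δ.i0 Δ.h0 hV a ≠ 0) {W : X.Opens} (hW : W ≤ V) (hne : ∃ x : X, x ∈ W)
    (f : Fn X W) (hf : Δ.δ (gm W hne f) ≠ 0) : Δ.mapT.NonZero := by
  refine ⟨V, a, W, hW, f, fun h0 => mul_ne_zero ha hf ?_⟩
  rw [← Δ.gm_field a hW hne hV f]
  have h1 : (Δ.field a).D W hW f = 0 := h0
  rw [h1, map_zero]

end VData

end Run7.h100.QT
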