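import Pool.Agent.Run7.h100.QT.Quad
import Pool.Agent.Run7.h100.QT.Tan

/-!
The quadric threefold is an integral projective scheme.
-/

open MvPolynomial AlgebraicGeometry CategoryTheory Limits TopologicalSpace
open Pool.Agent.Helper198.Sch Pool.Agent.Helper198.CurveFamily

namespace Run7.h100.QT

attribute [local instance] MvPolynomial.gradedAlgebra

section geometry

variable (k : Type) [Field k]

/-- coordinates of a point lying in the four charts -/
noncomputable def u0 : Fin 5 → k := ![1, 1, 1, -1, 0]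

theorem u0_rel : u0 k 0 * u0 k 1 + u0 k 2 * u0 k 3 + u0 k 4 ^ 2 = 0 := by
  change (1 : k) * 1 + 1 * (-1) + 0 ^ 2 = 0
  ring

theorem u0_unit (c : Fin 4) : u0 k (ci c) ≠ 0 := by
  fin_cases c
  · exact one_ne_zero
  · exact one_ne_zero
  · exact one_ne_zero
  · change (-1 : k) ≠ 0
    exact neg_ne_zero.2 one_ne_zero

/-- the point -/
noncomputable def x0 : Qd k :=
  V.chart (JQ k) 0 ((Spec.map (CommRingCat.ofHom
    (chLift (JQ k) 0 (u0 k) rfl (aeval_JQ _ (u0_rel k)) : Ch (JQ k) 0 →+* k)))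
    (IsLocalRing.closedPoint k))

theorem x0_mem (c : Fin 4) : x0 k ∈ V.D (JQ k) (ci c) := by
  unfold x0
  rw [V.chart_mem_D]
  intro h
  have h2 : chLift (JQ k) 0 (u0 k) rfl (aeval_JQ _ (u0_rel k)) (frac (JQ k) 0 (ci c)) ∈
      (IsLocalRing.closedPoint k).asIdeal := h
  rw [chLift_frac] at h2
  have h3 : u0 k (ci c) ∈ IsLocalRing.maximalIdeal k := h2
  rw [IsLocalRing.mem_maximalIdeal] at h3
  exact h3 (isUnit_iff_ne_zero.2 (u0_unit k c))

instance isIntegral_Q : IsIntegral (Qd k) :=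
  V.isIntegral_of_charts (JQ k) (ι := Fin 4) ci (exists_ci k) (fun c => isDomain_ch k c) (x0 k)
    (x0_mem k)

theorem isProjective_Q : IsProjective (Qs k) :=
  ⟨4, emb (JQ k) (Equiv.refl (Fin 5)),
    inferInstanceAs (IsClosedImmersion (emb (JQ k) (Equiv.refl (Fin 5)))),
    emb_str (JQ k) (Equiv.refl (Fin 5))⟩

instance compactSpace_Q : CompactSpace (Qd k) := by
  constructor
  have h : (Set.univ : Set (Qd k)) = ⋃ c : Fin 4, Set.range (V.chart (JQ k) (ci c)) := by
    symm
    rw [Set.eq_univ_iff_forall]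
    intro x
    obtain ⟨c, hc⟩ := exists_ci k x
    exact Set.mem_iUnion.2 ⟨c, (V.mem_range_chart _ _ _).2 hc⟩
  rw [h]
  apply isCompact_iUnion
  intro c
  exact isCompact_range (V.chart (JQ k) (ci c)).continuous

end geometry

end Run7.h100.QT
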