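import Pool.Agent.Run7.h100.QT.Homog
import Pool.Agent.Run7.h100.QT.Geo
import Pool.Agent.W488.Segre.Final

/-!
The quadric threefold is not isomorphic to a projective space.
-/

open MvPolynomial AlgebraicGeometry CategoryTheory Limits TopologicalSpace
open Pool.Agent.Helper198.Sch Pool.Agent.Helper198.CurveFamily Pool.Agent.W488.Segre

namespace Run7.h100.QT

attribute [local instance] MvPolynomial.gradedAlgebra

section notP

variable {k : Type} [Field k]

theorem exists_homog_forms [Infinite k] {σ τ : Type} [Finite σ] [Fintype τ] {J : HI τ k} (s0 : σ)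
    (ψ : V (⊥ : HI σ k) ⟶ V J) (hψ : ψ ≫ V.str J = V.str (⊥ : HI σ k)) :
    ∃ (e : ℕ) (G : τ → MvPolynomial σ k), (∀ a, (G a).IsHomogeneous e) ∧
      ∀ (F : Type) [Field F] [Algebra k F] (u : σ → F) (f : Spec (.of F) ⟶ V (⊥ : HI σ k)),
        IsPt (⊥ : HI σ k) f u → IsPt J (f ≫ ψ) (fun a => aeval u (G a)) := by
  obtain ⟨G, hG, hM⟩ := exists_forms s0 ψ hψ
  let B := MvPolynomial σ k
  let F0 := FractionRing B
  have hX0 : IsUnit (algebraMap B F0 (X s0)) := by
    rw [isUnit_iff_ne_zero]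
    intro h
    have := (IsFractionRing.injective B F0) (h.trans (map_zero _).symm)
    exact X_ne_zero s0 this
  obtain ⟨f0, hf0⟩ := IsPt.exists_bot (k := k) (E := F0) (fun a : σ => algebraMap B F0 (X a)) hX0
  have h1 := hM F0 _ f0 hf0
  obtain ⟨e, he⟩ := homog_of_rel hG (by
    intro a b t ht
    have ht' : IsUnit (algebraMap B F0 (C t)) := by
      rw [isUnit_iff_ne_zero]
      intro h
      have := (IsFractionRing.injective B F0) (h.trans (map_zero _).symm)
      exact ht (C_injective σ k (this.trans (map_zero _).symm))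
    have h2 := hM F0 _ f0 (hf0.smul ht')
    obtain ⟨v, -, hv⟩ := h1.unique h2
    have e0 : ∀ (w : σ → B) (g : B), aeval (fun s => algebraMap B F0 (w s)) g =
        algebraMap B F0 (aeval w g) := fun w g => aeval_algebraMap_apply F0 w g
    have e1 : ∀ a, aeval (fun s => algebraMap B F0 (X s)) (G a) = algebraMap B F0 (G a) := by
      intro a
      rw [e0 X, aeval_X_left_apply]
    have e2 : ∀ a, aeval (fun s => algebraMap B F0 (C t) * algebraMap B F0 (X s)) (G a) =
        algebraMap B F0 (aeval (fun s => C t * X s : σ → MvPolynomial σ k) (G a)) := by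
      intro a
      rw [← e0]
      have e3 : (fun s => algebraMap B F0 (C t) * algebraMap B F0 (X s)) =
          fun s => algebraMap B F0 (C t * X s) := by
        ext s
        exact (map_mul _ _ _).symm
      rw [e3]
    apply IsFractionRing.injective B F0
    rw [map_mul, map_mul, ← e2, ← e2, hv a, hv b, e1, e1]
    ring)
  exact ⟨e, G, he, hM⟩

/-- coordinates of the generic point of a line -/
noncomputable def ln (k : Type) [Field k] : Fin 5 → Polynomial k := ![1, 0, Polynomial.X, 0, 0]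

/-- coordinates of a point -/
def pA (k : Type) [Field k] : Fin 5 → k := ![1, 0, 0, 0, 0]

/-- coordinates of a point -/
def pB (k : Type) [Field k] : Fin 5 → k := ![0, 1, 0, 0, 0]

theorem no_iso [IsAlgClosed k] {σ : Type} [Finite σ] (s0 : σ) (ψ : V (⊥ : HI σ k) ⟶ V (JQ k))
    (hψ : ψ ≫ V.str (JQ k) = V.str (⊥ : HI σ k)) (φ : V (JQ k) ⟶ V (⊥ : HI σ k))
    (hφψ : φ ≫ ψ = 𝟙 _) : False := by
  classical
  have : Fintype σ := Fintype.ofFinite σ
  have hinf : Infinite k := IsAlgClosed.instInfinite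
  have hφ : φ ≫ V.str (⊥ : HI σ k) = V.str (JQ k) := by
    rw [← hψ, ← Category.assoc, hφψ, Category.id_comp]
  obtain ⟨e, G, he, hM⟩ := exists_homog_forms s0 ψ hψ
  -- values at nonzero vectors
  have hne : ∀ u : σ → k, (∃ s, u s ≠ 0) → ∃ a, aeval u (G a) ≠ 0 := by
    rintro u ⟨s, hs⟩
    obtain ⟨f, hf⟩ := IsPt.exists_bot (k := k) (E := k) u (isUnit_iff_ne_zero.2 hs)
    obtain ⟨a, ha⟩ := (hM k u f hf).exists_unit
    exact ⟨a, ha.ne_zero⟩
  have hrel : ∀ u : σ → k, (∃ s, u s ≠ 0) → aeval u (G 0) * aeval u (G 1) +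
      aeval u (G 2) * aeval u (G 3) + (aeval u (G 4)) ^ 2 = 0 := by
    rintro u ⟨s, hs⟩
    obtain ⟨f, hf⟩ := IsPt.exists_bot (k := k) (E := k) u (isUnit_iff_ne_zero.2 hs)
    exact (hM k u f hf).rel
  -- the line
  let P := Polynomial k
  let L := FractionRing P
  have hl0 : ln k 0 = 1 := rfl
  obtain ⟨fl, hfl⟩ := IsPt.exists_quad (k := k) (E := L) (fun a => algebraMap P L (ln k a))
    (c := 0) (by change IsUnit (algebraMap P L (ln k 0)); rw [hl0, map_one]; exact isUnit_one)
    (by
      rw [← map_mul, ← map_mul, ← map_add, ← map_pow, ← map_add]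
      have : ln k 0 * ln k 1 + ln k 2 * ln k 3 + ln k 4 ^ 2 = 0 := by
        change (1 : Polynomial k) * 0 + Polynomial.X * 0 + 0 ^ 2 = 0
        ring
      rw [this, map_zero])
  obtain ⟨w, hw⟩ := IsPt.exists_vec (fl ≫ φ) (by rw [Category.assoc, hφ, hfl.str])
  obtain ⟨c0, hc0⟩ := hw.exists_unit
  obtain ⟨v, h, hv, hh, hvh⟩ := exists_cop (B := P) w hc0.ne_zero
  have hw2 : IsPt (⊥ : HI σ k) (fl ≫ φ) (fun s => algebraMap P L (h s)) := by
    have h1 := hw.smul (isUnit_iff_ne_zero.2 hv)
    have e : (fun a => v * w a) = fun a => algebraMap P L (h a) := by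
      ext a; rw [hvh]
    rwa [e] at h1
  have h1 := hM L _ _ hw2
  rw [Category.assoc, hφψ, Category.comp_id] at h1
  obtain ⟨z, -, hz⟩ := hfl.unique h1
  have e0 : ∀ g : MvPolynomial σ k, aeval (fun s => algebraMap P L (h s)) g =
      algebraMap P L (aeval h g) := fun g => aeval_algebraMap_apply L h g
  have hz0 := hz 0
  rw [e0, hl0, map_one, mul_one] at hz0
  let lam : P := aeval h (G 0)
  have hg : ∀ a, aeval h (G a) = lam * ln k a := by
    intro a
    apply IsFractionRing.injective P L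
    rw [map_mul, ← e0, hz a, ← hz0]
  -- `lam` is a nonzero constant
  have hroot : ∀ t : k, lam.eval t ≠ 0 := by
    intro t ht
    obtain ⟨a, ha⟩ := hne (fun s => (h s).eval t) (by
      by_contra hcon
      push Not at hcon
      have h2 : IsUnit (Polynomial.X - Polynomial.C t) :=
        hh _ fun s => Polynomial.dvd_iff_isRoot.2 (hcon s)
      exact Polynomial.not_isUnit_X_sub_C t h2)
    apply ha
    have h3 : aeval (fun s => (h s).eval t) (G a) = (aeval h (G a)).eval t :=
      (comp_aeval_apply h (Polynomial.aeval t : Polynomial k →ₐ[k] k) (G a)).symm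
    rw [h3, hg a, Polynomial.eval_mul, ht, zero_mul]
  have hdeg : lam.degree = 0 := by
    by_contra hcon
    obtain ⟨t, ht⟩ := IsAlgClosed.exists_root lam hcon
    exact hroot t ht
  obtain ⟨c, hc⟩ : ∃ c : k, lam = Polynomial.C c := ⟨_, Polynomial.eq_C_of_degree_eq_zero hdeg⟩
  have hcne : c ≠ 0 := by
    intro h0
    have := hroot 0
    rw [hc, h0, map_zero, Polynomial.eval_zero] at this
    exact this rfl
  -- degrees
  let N := Finset.univ.sup (fun s => (h s).natDegree)
  have hN : ∀ s, (h s).natDegree ≤ N := fun s =>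
    Finset.le_sup (f := fun s => (h s).natDegree) (Finset.mem_univ s)
  have hhc0 : h c0 ≠ 0 := by
    intro h0
    have h2 := hvh c0
    rw [h0, map_zero] at h2
    exact mul_ne_zero hv hc0.ne_zero h2.symm
  have hlead : ∃ s, (h s).coeff N ≠ 0 := by
    by_cases hN0 : N = 0
    · refine ⟨c0, ?_⟩
      have h2 : (h c0).natDegree = N := by have := hN c0; omega
      rw [← h2]
      exact Polynomial.leadingCoeff_ne_zero.2 hhc0
    · obtain ⟨s, -, hs⟩ := Finset.exists_mem_eq_sup Finset.univ ⟨c0, Finset.mem_univ c0⟩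
        (fun s => (h s).natDegree)
      have hs' : N = (h s).natDegree := hs
      refine ⟨s, ?_⟩
      rw [hs']
      apply Polynomial.leadingCoeff_ne_zero.2
      rintro h0
      rw [h0, Polynomial.natDegree_zero] at hs'
      exact hN0 hs'
  have hln : ∀ a, (ln k a).natDegree ≤ 1 := by
    intro a
    fin_cases a
    · change (1 : Polynomial k).natDegree ≤ 1
      rw [Polynomial.natDegree_one]; exact Nat.zero_le _
    · change (0 : Polynomial k).natDegree ≤ 1
      rw [Polynomial.natDegree_zero]; exact Nat.zero_le _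
    · change (Polynomial.X : Polynomial k).natDegree ≤ 1
      exact Polynomial.natDegree_X_le
    · change (0 : Polynomial k).natDegree ≤ 1
      rw [Polynomial.natDegree_zero]; exact Nat.zero_le _
    · change (0 : Polynomial k).natDegree ≤ 1
      rw [Polynomial.natDegree_zero]; exact Nat.zero_le _
  have heN : e * N ≤ 1 := by
    obtain ⟨a, ha⟩ := hne _ hlead
    rw [← (coeff_aeval (he a) h N hN).2, hg a, hc, Polynomial.coeff_C_mul] at ha
    have h2 : (ln k a).coeff (e * N) ≠ 0 := right_ne_zero_of_mul ha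
    exact (Polynomial.le_natDegree_of_ne_zero h2).trans (hln a)
  have heN2 : 1 ≤ e * N := by
    have h2 := (coeff_aeval (he 2) h N hN).1
    rw [hg 2, hc] at h2
    have h3 : ln k 2 = Polynomial.X := rfl
    rw [h3, Polynomial.natDegree_C_mul hcne, Polynomial.natDegree_X] at h2
    exact h2
  have he1 : e = 1 := by
    have h2 : e * N = 1 := le_antisymm heN heN2
    exact Nat.eq_one_of_mul_eq_one_right h2
  subst he1
  -- points
  have hpt : ∀ p : Fin 5 → k, (∃ a, p a ≠ 0) → p 0 * p 1 + p 2 * p 3 + p 4 ^ 2 = 0 →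
      ∃ u : σ → k, ∀ a, aeval u (G a) = p a := by
    rintro p ⟨a, ha⟩ hp
    obtain ⟨f, hf⟩ := IsPt.exists_quad (k := k) (E := k) p (isUnit_iff_ne_zero.2 ha) hp
    obtain ⟨u, hu⟩ := IsPt.exists_vec (f ≫ φ) (by rw [Category.assoc, hφ, hf.str])
    have h2 := hM k u _ hu
    rw [Category.assoc, hφψ, Category.comp_id] at h2
    obtain ⟨y, -, hy⟩ := h2.unique hf
    refine ⟨fun s => y * u s, fun a => ?_⟩
    rw [aeval_scale (he a) u y, pow_one, hy a]
  obtain ⟨uA, hA⟩ := hpt (pA k) ⟨0, one_ne_zero⟩ (by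
    change (1 : k) * 0 + 0 * 0 + 0 ^ 2 = 0
    ring)
  obtain ⟨uB, hB⟩ := hpt (pB k) ⟨1, one_ne_zero⟩ (by
    change (0 : k) * 1 + 0 * 0 + 0 ^ 2 = 0
    ring)
  have hsum : ∀ a, aeval (fun s => uA s + uB s) (G a) = pA k a + pB k a := by
    intro a
    rw [aeval_add_of_linear (he a), hA, hB]
  have hnz : ∃ s, uA s + uB s ≠ 0 := by
    by_contra hcon
    push Not at hcon
    have h2 := aeval_scale (he 0) (fun s => uA s + uB s) (0 : k)
    have e1 : (fun s => (0 : k) * (uA s + uB s)) = fun s => uA s + uB s := by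
      ext s
      rw [hcon s, mul_zero]
    rw [e1, pow_one, zero_mul, hsum] at h2
    have h3 : pA k 0 + pB k 0 = 1 := by
      change (1 : k) + 0 = 1
      ring
    rw [h3] at h2
    exact one_ne_zero h2
  have h5 := hrel _ hnz
  rw [hsum, hsum, hsum, hsum, hsum] at h5
  have h6 : (pA k 0 + pB k 0) * (pA k 1 + pB k 1) + (pA k 2 + pB k 2) * (pA k 3 + pB k 3) +
      (pA k 4 + pB k 4) ^ 2 = 1 := by
    change ((1 : k) + 0) * (0 + 1) + (0 + 0) * (0 + 0) + (0 + 0) ^ 2 = 1
    ring
  rw [h6] at h5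
  exact one_ne_zero h5

/-- The quadric threefold is not isomorphic to a projective space. -/
theorem not_iso_P (k : Type) [Field k] [IsAlgClosed k] (n : ℕ) :
    ¬ ∃ e : Qd k ≅ PSpace n k, e.hom ≫ PSpace.str n k = Qs k := by
  rintro ⟨e, he⟩
  apply no_iso (k := k) (σ := Fin (n + 1)) 0 (inv (toP n k) ≫ e.inv) ?_ (e.hom ≫ toP n k) ?_
  · have h1 : e.inv ≫ Qs k = PSpace.str n k := by rw [← he, e.inv_hom_id_assoc]
    have h2 : V.str (⊥ : HI (Fin (n + 1)) k) = inv (toP n k) ≫ PSpace.str n k := by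
      rw [← toP_str, IsIso.inv_hom_id_assoc]
    rw [h2, ← h1, Category.assoc]
  · rw [Category.assoc, IsIso.hom_inv_id_assoc, e.hom_inv_id]

end notP

end Run7.h100.QT
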