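import Mathlib

/-!
Coprime families in factorial domains.
-/

namespace Run7.h100.QT

/-- coprime families -/
def Cop {B : Type} [CommRing B] {τ : Type} (G : τ → B) : Prop := ∀ d, (∀ a, d ∣ G a) → IsUnit d

theorem Cop.dvd {B : Type} [CommRing B] [IsDomain B] [UniqueFactorizationMonoid B] {τ : Type}
    [Fintype τ] {G : τ → B} (hG : Cop G) {x y : B} (h : ∀ a, x ∣ y * G a) : x ∣ y := by
  classical
  let _ : StrongNormalizationMonoid B := UniqueFactorizationMonoid.strongNormalizationMonoid
  let _ : NormalizedGCDMonoid B := UniqueFactorizationMonoid.toNormalizedGCDMonoid B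
  have h1 : x ∣ Finset.univ.gcd (fun a => y * G a) := Finset.dvd_gcd fun a _ => h a
  have h2 : IsUnit (Finset.univ.gcd G) := hG _ fun a => Finset.gcd_dvd (Finset.mem_univ a)
  exact (h2.dvd_mul_right).1 (((Finset.gcd_mul_left' Finset.univ G y).dvd_iff_dvd_right).1 h1)

theorem Cop.exists_mul {B : Type} [CommRing B] [IsDomain B] [UniqueFactorizationMonoid B]
    {τ : Type} [Fintype τ] {G : τ → B} (hG : Cop G) {H : τ → B}
    (h : ∀ a b, H a * G b = H b * G a) {b : τ} (hb : G b ≠ 0) : ∃ μ, ∀ a, H a = μ * G a := by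
  have h1 : G b ∣ H b := hG.dvd fun a => ⟨H a, by rw [← h]; ring⟩
  obtain ⟨μ, hμ⟩ := h1
  refine ⟨μ, fun a => ?_⟩
  have h2 := h a b
  rw [hμ] at h2
  apply mul_right_cancel₀ hb
  rw [h2]
  ring

theorem exists_cop {B F0 : Type} [CommRing B] [IsDomain B] [UniqueFactorizationMonoid B]
    [Field F0] [Algebra B F0] [IsFractionRing B F0] {τ : Type} [Fintype τ] (w : τ → F0) {c : τ}
    (hc : w c ≠ 0) : ∃ (v : F0) (G : τ → B), v ≠ 0 ∧ Cop G ∧
      ∀ a, algebraMap B F0 (G a) = v * w a := by
  classical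
  obtain ⟨b, hb⟩ := IsLocalization.exist_integer_multiples_of_finite (nonZeroDivisors B) w
  choose H hH using hb
  let _ : StrongNormalizationMonoid B := UniqueFactorizationMonoid.strongNormalizationMonoid
  let _ : NormalizedGCDMonoid B := UniqueFactorizationMonoid.toNormalizedGCDMonoid B
  obtain ⟨G, hG, hG1⟩ := Finset.extract_gcd H (s := Finset.univ) ⟨c, Finset.mem_univ c⟩
  have hb0 : algebraMap B F0 b ≠ 0 := by
    intro h
    have := (IsFractionRing.injective B F0) (h.trans (map_zero _).symm)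
    exact nonZeroDivisors.ne_zero b.2 this
  have hH' : ∀ a, algebraMap B F0 (H a) = algebraMap B F0 b * w a := fun a => by
    rw [hH a, Algebra.smul_def]
  have hg0 : algebraMap B F0 (Finset.univ.gcd H) ≠ 0 := by
    intro h
    have h1 := (IsFractionRing.injective B F0) (h.trans (map_zero _).symm)
    have h2 : H c = 0 := by rw [hG c (Finset.mem_univ c), h1, zero_mul]
    have h3 := hH' c
    rw [h2, map_zero] at h3
    exact mul_ne_zero hb0 hc h3.symm
  refine ⟨(algebraMap B F0 (Finset.univ.gcd H))⁻¹ * algebraMap B F0 b, G,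
    mul_ne_zero (inv_ne_zero hg0) hb0, fun d hd => ?_, fun a => ?_⟩
  · have h1 : d ∣ Finset.univ.gcd G := Finset.dvd_gcd fun a _ => hd a
    rw [hG1] at h1
    exact isUnit_of_dvd_one h1
  · rw [mul_assoc, ← hH' a, hG a (Finset.mem_univ a), map_mul, ← mul_assoc,
      inv_mul_cancel₀ hg0, one_mul]

end Run7.h100.QT
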