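import Pool.Agent.Run7.h100.QT.Vec

/-!
The twisted vector field `∂ / ∂ x_4` on the quadric threefold in characteristic two.
-/

open MvPolynomial AlgebraicGeometry CategoryTheory Limits TopologicalSpace
open Pool.Agent.Helper198.Sch Pool.Agent.Helper198.CurveFamily Pool.Agent.W488.Segre

namespace Run7.h100.QT

attribute [local instance] MvPolynomial.gradedAlgebra

theorem co_change {X : Scheme.{0}} [IsIntegral X] (L : LB X) (i j : L.ι)
    (hi : ∃ x : X, x ∈ L.U i) (hj : ∃ x : X, x ∈ L.U j) {W : X.Opens} (hW : ∃ x : X, x ∈ W)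
    (a : L.Sec 1 W) : co L i hi hW a =
      gm (L.U i ⊓ L.U j) (exists_mem_inf hi hj) (L.g i j) * co L j hj hW a := by
  have hne := exists_mem_inf (exists_mem_inf hW hi) hj
  have h1 := congrArg (gm ((W ⊓ L.U i) ⊓ L.U j) hne)
    (a.compat i j _ (inf_le_left.trans inf_le_left) (inf_le_left.trans inf_le_right)
      inf_le_right)
  rw [pow_one, map_mul, gm_rs _ _ (exists_mem_inf hW hi), gm_rs _ _ (exists_mem_inf hi hj),
    gm_rs _ _ (exists_mem_inf hW hj)] at h1
  exact h1

section vec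

variable (k : Type) [Field k]

theorem ne_D (c : Fin 4) : ∃ x : Qd k, x ∈ V.D (JQ k) (ci c) := ⟨x0 k, x0_mem k c⟩

/-- function field -/
noncomputable abbrev KQ : Type := (Qd k).functionField

noncomputable instance : Field (KQ k) := inferInstanceAs (Field (Qd k).functionField)

/-- functions of a chart in the function field -/
noncomputable def gc (c : Fin 4) : Ch (JQ k) (ci c) →+* KQ k :=
  (gm (V.D (JQ k) (ci c)) (ne_D k c)).comp (sc k (ci c))

/-- `x_a / x_0` in the function field -/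
noncomputable def tt (a : Fin 5) : KQ k := gc k 0 (fq k (ci 0) a)

theorem tt_eq (c : Fin 4) (a : Fin 5) : tt k a = tt k (ci c) * gc k c (fq k (ci c) a) := by
  have hne := exists_mem_inf (ne_D k 0) (ne_D k c)
  have h1 := congrArg (gm (V.D (JQ k) (ci 0) ⊓ V.D (JQ k) (ci c)) hne)
    (sec_frac (JQ k) a (c := ci 0) (c' := ci c) (inf_le_left) (inf_le_right))
  rw [map_mul, gm_rs _ _ (ne_D k 0), gm_rs _ _ (ne_D k 0), gm_rs _ _ (ne_D k c)] at h1
  exact h1

theorem tt_zero : tt k 0 = 1 := by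
  have : fq k (ci 0) 0 = 1 := frac_self _ _
  rw [tt, this, map_one]

theorem tt_ne (c : Fin 4) : tt k (ci c) ≠ 0 := by
  intro h
  have := tt_eq k c 0
  rw [h, zero_mul, tt_zero] at this
  exact one_ne_zero this

/-- the chart ring as a polynomial ring in the function field -/
noncomputable def ev : MvPolynomial (Fin 3) k →+* KQ k :=
  (gc k 0).comp ((chEquiv k 0).symm : MvPolynomial (Fin 3) k →+* Ch (JQ k) (ci 0))

theorem ev_uQ (a : Fin 5) : ev k (uQ k 0 a) = tt k a := by
  have h := chEquiv_frac k 0 a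
  rw [← h]
  change gc k 0 ((chEquiv k 0).symm (chEquiv k 0 _)) = _
  rw [AlgEquiv.symm_apply_apply]
  rfl

theorem two_zero [CharP k 2] : (2 : KQ k) = 0 := by
  have h1 : (2 : k) = 0 := by exact_mod_cast CharP.cast_eq_zero k 2
  have h2 : ((ev k).comp (C : k →+* MvPolynomial (Fin 3) k)) 2 = 0 := by
    rw [h1, map_zero]
  rw [map_ofNat] at h2
  exact h2

/-- the function field is the field of fractions of the polynomial ring -/
@[reducible] noncomputable def algK : Algebra (MvPolynomial (Fin 3) k) (KQ k) := (ev k).toAlgebra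

theorem isFrac : @IsFractionRing (MvPolynomial (Fin 3) k) _ (KQ k) _ (algK k) := by
  let U := V.D (JQ k) (ci 0)
  have hU : Nonempty U := ⟨⟨x0 k, x0_mem k 0⟩⟩
  have h1 : IsFractionRing Γ(Qd k, U) (Qd k).functionField :=
    functionField_isFractionRing_of_isAffineOpen (Qd k) U (isAffine_D k _)
  let e : MvPolynomial (Fin 3) k ≃+* Γ(Qd k, U) :=
    (chEquiv k 0).symm.toRingEquiv.trans (RingEquiv.ofBijective (sc k (ci 0))
      (sec_bijective (JQ k) (ci 0)))
  let _ := algK k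
  refine IsLocalization.of_ringEquiv_left e (MulEquivClass.map_nonZeroDivisors e) ?_
  intro x
  rfl

/-- the derivation `∂ / ∂ x_4` of the function field -/
noncomputable def dK (x : KQ k) : KQ k :=
  letI := algK k
  haveI := isFrac k
  H563R2.Deriv.dd (P := MvPolynomial (Fin 3) k)
    (pderiv 2 : Derivation k (MvPolynomial (Fin 3) k) (MvPolynomial (Fin 3) k)) x

theorem dK_add (x y : KQ k) : dK k (x + y) = dK k x + dK k y := by
  let _ := algK k
  have := isFrac k
  exact H563R2.Deriv.dd_add _ x y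

theorem dK_mul (x y : KQ k) : dK k (x * y) = x * dK k y + y * dK k x := by
  let _ := algK k
  have := isFrac k
  exact H563R2.Deriv.dd_mul _ x y

theorem dK_ev (q : MvPolynomial (Fin 3) k) : dK k (ev k q) = ev k (pderiv 2 q) := by
  let _ := algK k
  have := isFrac k
  exact H563R2.Deriv.dd_algebraMap _ q

theorem dK_zero : dK k 0 = 0 := by
  have := dK_mul k 0 0
  rwa [zero_mul, zero_mul, add_zero] at this

theorem dK_neg (x : KQ k) : dK k (-x) = - dK k x := by
  have h := dK_add k x (-x)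
  rw [add_neg_cancel, dK_zero] at h
  exact (neg_eq_of_add_eq_zero_right h.symm).symm

theorem dK_sq [CharP k 2] (x : KQ k) : dK k (x ^ 2) = 0 := by
  rw [pow_two, dK_mul, ← two_mul, two_zero, zero_mul]

theorem dK_tt [CharP k 2] (c : Fin 4) : dK k (tt k (ci c)) = 0 := by
  have h2 : (2 : MvPolynomial (Fin 3) k) = 0 := by
    have h1 : (2 : k) = 0 := by exact_mod_cast CharP.cast_eq_zero k 2
    have : (C (2 : k) : MvPolynomial (Fin 3) k) = 0 := by rw [h1, map_zero]
    rwa [map_ofNat] at this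
  rw [← ev_uQ, dK_ev]
  fin_cases c
  · change ev k (pderiv 2 (1 : MvPolynomial (Fin 3) k)) = 0
    rw [pderiv_one, map_zero]
  · change ev k (pderiv 2 (-(X 0 * X 1 + X 2 ^ 2) : MvPolynomial (Fin 3) k)) = 0
    have : pderiv 2 (-(X 0 * X 1 + X 2 ^ 2) : MvPolynomial (Fin 3) k) = 0 := by
      rw [map_neg, map_add, Derivation.leibniz, pderiv_X_of_ne (by decide),
        pderiv_X_of_ne (by decide), pderiv_pow, pderiv_X_self]
      simp [h2]
    rw [this, map_zero]
  · change ev k (pderiv 2 (X 0 : MvPolynomial (Fin 3) k)) = 0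
    rw [pderiv_X_of_ne (by decide), map_zero]
  · change ev k (pderiv 2 (X 1 : MvPolynomial (Fin 3) k)) = 0
    rw [pderiv_X_of_ne (by decide), map_zero]

theorem dK_tt4 : dK k (tt k 4) = 1 := by
  rw [← ev_uQ, dK_ev]
  change ev k (pderiv 2 (X 2 : MvPolynomial (Fin 3) k)) = 1
  rw [pderiv_X_self, map_one]

theorem dK_gc_frac [CharP k 2] (c : Fin 4) (a : Fin 5) :
    ∃ z : Ch (JQ k) (ci c), tt k (ci c) * dK k (gc k c (fq k (ci c) a)) = gc k c z := by
  have h := congrArg (dK k) (tt_eq k c a)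
  rw [dK_mul, dK_tt, mul_zero, add_zero] at h
  by_cases ha : a = 4
  · subst ha
    rw [dK_tt4] at h
    exact ⟨1, by rw [← h, map_one]⟩
  · have : a.val < 4 := by
      have := a.isLt
      have h2 : a.val ≠ 4 := fun h => ha (Fin.ext h)
      omega
    have e : ci ⟨a.val, this⟩ = a := Fin.ext rfl
    rw [← e, dK_tt] at h
    rw [← e]
    exact ⟨0, by rw [← h, map_zero]⟩

theorem dK_gc [CharP k 2] [IsAlgClosed k] (c : Fin 4) (z : Ch (JQ k) (ci c)) :
    ∃ z' : Ch (JQ k) (ci c), tt k (ci c) * dK k (gc k c z) = gc k c z' := by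
  obtain ⟨q, rfl⟩ := aeval_frac_surjective (JQ k) (ci c) z
  induction q using MvPolynomial.induction_on with
  | C r =>
    obtain ⟨b, hb⟩ := IsAlgClosed.exists_pow_nat_eq r (n := 2) (by norm_num)
    refine ⟨0, ?_⟩
    rw [aeval_C, ← hb, map_pow, map_pow, dK_sq, mul_zero, map_zero]
  | add p q hp hq =>
    obtain ⟨z, hz⟩ := hp
    obtain ⟨w, hw⟩ := hq
    refine ⟨z + w, ?_⟩
    rw [map_add, map_add, dK_add, mul_add, hz, hw, map_add]
  | mul_X p a hp =>
    obtain ⟨z, hz⟩ := hp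
    obtain ⟨w, hw⟩ := dK_gc_frac k c a
    refine ⟨aeval (frac (JQ k) (ci c)) p * w + fq k (ci c) a * z, ?_⟩
    rw [map_mul, aeval_X, map_mul, dK_mul, mul_add, map_add, map_mul, map_mul, ← hz, ← hw]
    ring

theorem Rg_dK [CharP k 2] [IsAlgClosed k] (c : Fin 4) (x : Qd k) (hx : x ∈ V.D (JQ k) (ci c))
    (e : KQ k) (he : Rg x e) : Rg x (tt k (ci c) * dK k e) := by
  obtain ⟨a, b, hb, hab⟩ := Rg.exists_frac (isAffine_D k (ci c)) hx he
  obtain ⟨a, rfl⟩ := (sec_bijective (JQ k) (ci c)).2 a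
  obtain ⟨b, rfl⟩ := (sec_bijective (JQ k) (ci c)).2 b
  have hab' : gc k c b * e = gc k c a := hab
  have hinv : Rg x (gc k c b)⁻¹ := Rg.inv ⟨x, hx⟩ _ hb
  have hne : gc k c b ≠ 0 := by
    intro h0
    have h1 : sc k (ci c) b = 0 := by
      apply gm_injective _ (ne_D k c)
      rw [map_zero]; exact h0
    have h2 : x ∈ (Qd k).basicOpen (sc k (ci c) b) := hb
    rw [h1, basicOpen_zero'] at h2
    exact h2
  have h3 := congrArg (dK k) hab'
  rw [dK_mul] at h3
  obtain ⟨a', ha'⟩ := dK_gc k c a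
  obtain ⟨b', hb'⟩ := dK_gc k c b
  have h4 : tt k (ci c) * dK k e = (gc k c b)⁻¹ * (gc k c a' + -(e * gc k c b')) := by
    rw [← ha', ← hb', ← h3]
    field_simp
    ring
  rw [h4]
  have hg : ∀ z, Rg x (gc k c z) := fun z => Rg.of (V.D (JQ k) (ci c)) (ne_D k c) (sc k (ci c) z) hx
  exact hinv.mul ((hg a').add (he.mul (hg b')).neg)

/-- the vector field with values in the dual of `O(1)` -/
noncomputable def vd [CharP k 2] [IsAlgClosed k] : VData (Qs k) (O1 k) where
  i0 := (0 : Fin 4)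
  h0 := ne_D k 0
  δ := dK k
  add := dK_add k
  mul := dK_mul k
  cst0 W hW a := by
    obtain ⟨b, hb⟩ := IsAlgClosed.exists_pow_nat_eq a (n := 2) (by norm_num)
    rw [← hb, map_pow, map_pow]
    exact dK_sq k _
  reg W hW a x hx e he := by
    obtain ⟨c, hc⟩ := exists_ci k x
    have h1 := co_change (O1 k) (0 : Fin 4) c (ne_D k 0) (ne_D k c) hW a
    have h2 : gm ((O1 k).U (0 : Fin 4) ⊓ (O1 k).U c) (exists_mem_inf (ne_D k 0) (ne_D k c))
        ((O1 k).g (0 : Fin 4) c) = tt k (ci c) := by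
      exact gm_rs _ _ (ne_D k 0) _
    rw [h2] at h1
    have h3 : co (O1 k) (0 : Fin 4) (ne_D k 0) hW a * dK k e =
        co (O1 k) c (ne_D k c) hW a * (tt k (ci c) * dK k e) := by
      rw [h1]
      ring
    rw [h3]
    have h4 : x ∈ W ⊓ (O1 k).U c := ⟨hx, hc⟩
    have h5 : Rg x (co (O1 k) c (ne_D k c) hW a) := Rg.of _ _ _ h4
    exact h5.mul (Rg_dK k c x hc e he)

theorem exists_nonZero [CharP k 2] [IsAlgClosed k] : ∃ Φ : (O1 k).MapT (Qs k), Φ.NonZero := by
  refine ⟨(vd k).mapT, ?_⟩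
  have hT : ∃ x : Qd k, x ∈ (⊤ : (Qd k).Opens) := ⟨x0 k, trivial⟩
  apply VData.mapT_nonZero (vd k) hT (xs k 0) ?_ (W := V.D (JQ k) (ci 0)) le_top (ne_D k 0)
    (sc k (ci 0) (fq k (ci 0) 4)) ?_
  · have h1 : co (O1 k) (vd k).i0 (vd k).h0 hT (xs k 0) = tt k 0 :=
      gm_rs _ _ (ne_D k 0) _
    rw [h1, tt_zero]
    exact one_ne_zero
  · have h1 : (vd k).δ (gm (V.D (JQ k) (ci 0)) (ne_D k 0) (sc k (ci 0) (fq k (ci 0) 4))) =
      dK k (tt k 4) := rfl
    rw [h1, dK_tt4]
    exact one_ne_zero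

end vec

end Run7.h100.QT
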