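import Pool.Agent.Run7.h100.QT.MorP

/-!
The coprime polynomials giving a morphism from projective space are forms of the same degree.
-/

open MvPolynomial AlgebraicGeometry CategoryTheory Limits TopologicalSpace
open Pool.Agent.Helper198.Sch Pool.Agent.W488.Segre

namespace Run7.h100.QT

attribute [local instance] MvPolynomial.gradedAlgebra

section poly

variable {k : Type} [Field k] {σ τ : Type}

theorem scale_eq (g : MvPolynomial σ k) (D : ℕ) (hD : g.totalDegree < D) (t : k) :
    aeval (fun s => C t * X s : σ → MvPolynomial σ k) g =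
      ∑ j ∈ Finset.range D, C t ^ j * homogeneousComponent j g := by
  have h1 : g = ∑ j ∈ Finset.range D, homogeneousComponent j g := by
    conv_lhs => rw [← sum_homogeneousComponent g]
    apply Finset.sum_subset
    · intro j hj
      rw [Finset.mem_range] at hj ⊢
      omega
    · intro j _ hj
      rw [Finset.mem_range, not_lt] at hj
      exact homogeneousComponent_eq_zero _ _ (by omega)
  conv_lhs => rw [h1, map_sum]
  refine Finset.sum_congr rfl fun j _ => ?_
  rw [aeval_scale (homogeneousComponent_isHomogeneous j g) (X : σ → MvPolynomial σ k) (C t),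
    aeval_X_left_apply]

theorem comp_rel [Infinite k] (g g' : MvPolynomial σ k)
    (h : ∀ t : k, t ≠ 0 → aeval (fun s => C t * X s : σ → MvPolynomial σ k) g * g' =
      aeval (fun s => C t * X s : σ → MvPolynomial σ k) g' * g) (j : ℕ) :
    homogeneousComponent j g * g' = homogeneousComponent j g' * g := by
  let D := max (max g.totalDegree g'.totalDegree) j + 1
  let P : Polynomial (MvPolynomial σ k) := ∑ j ∈ Finset.range D,
    Polynomial.monomial j (homogeneousComponent j g * g' - homogeneousComponent j g' * g)
  have hP : P = 0 := by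
    apply Polynomial.eq_zero_of_infinite_isRoot
    have h1 : (Set.range (fun t : {t : k // t ≠ 0} => (C (t : k) : MvPolynomial σ k))).Infinite := by
      have : Infinite {t : k // t ≠ 0} := by
        have := (Set.finite_singleton (0 : k)).infinite_compl
        exact Set.infinite_coe_iff.2 this
      apply Set.infinite_range_of_injective
      intro a b hab
      exact Subtype.ext (C_injective σ k hab)
    refine h1.mono ?_
    rintro _ ⟨⟨t, ht⟩, rfl⟩
    have h2 := h t ht
    rw [scale_eq g D (by omega), scale_eq g' D (by omega), Finset.sum_mul, Finset.sum_mul] at h2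
    change Polynomial.eval _ P = 0
    rw [Polynomial.eval_finsetSum]
    simp only [Polynomial.eval_monomial]
    have h3 := sub_eq_zero.2 h2
    rw [← Finset.sum_sub_distrib] at h3
    rw [← h3]
    refine Finset.sum_congr rfl fun j _ => ?_
    ring
  have h2 := congrArg (fun p => Polynomial.coeff p j) hP
  simp only [P, Polynomial.finsetSum_coeff, Polynomial.coeff_monomial, Polynomial.coeff_zero] at h2
  rw [Finset.sum_ite_eq' (Finset.range D) j, if_pos (Finset.mem_range.2 (by omega))] at h2
  exact sub_eq_zero.1 h2

theorem lead_ne {g : MvPolynomial σ k} (hg : g ≠ 0) :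
    homogeneousComponent g.totalDegree g ≠ 0 := by
  have hne : g.support.Nonempty := support_nonempty.2 hg
  obtain ⟨d, hd, hd2⟩ := Finset.exists_mem_eq_sup g.support hne (fun m => m.sum fun _ e => e)
  intro h
  have h1 := congrArg (coeff d) h
  rw [coeff_homogeneousComponent, coeff_zero, if_pos] at h1
  · exact (mem_support_iff.1 hd) h1
  · rw [totalDegree, hd2]; rfl

theorem homog_of_rel [Fintype τ] {G : τ → MvPolynomial σ k} (hG : Cop G) [Infinite k]
    (h : ∀ a b (t : k), t ≠ 0 → aeval (fun s => C t * X s : σ → MvPolynomial σ k) (G a) * G b =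
      aeval (fun s => C t * X s : σ → MvPolynomial σ k) (G b) * G a) :
    ∃ e, ∀ a, (G a).IsHomogeneous e := by
  obtain ⟨b, hb⟩ : ∃ b, G b ≠ 0 := by
    by_contra hcon
    push Not at hcon
    exact not_isUnit_zero (hG 0 fun a => by rw [hcon a])
  obtain ⟨μ, hμ⟩ := hG.exists_mul (H := fun a => homogeneousComponent (G b).totalDegree (G a))
    (fun a a' => comp_rel (G a) (G a') (h a a') _) hb
  have h1 : homogeneousComponent (G b).totalDegree (G b) ≠ 0 := lead_ne hb
  have h2 : homogeneousComponent (G b).totalDegree (G b) = μ * G b := hμ b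
  have hμ0 : μ ≠ 0 := by
    rintro rfl
    rw [zero_mul] at h2
    exact h1 h2
  have h3 := (homogeneousComponent_isHomogeneous (G b).totalDegree (G b)).totalDegree h1
  rw [h2, totalDegree_mul_of_isDomain hμ0 hb] at h3
  have h4 : μ.totalDegree = 0 := by omega
  obtain ⟨m, rfl⟩ : ∃ m : k, μ = C m := ⟨_, totalDegree_eq_zero_iff_eq_C.1 h4⟩
  have h6 : m ≠ 0 := by
    intro h0
    rw [h0, map_zero] at hμ0
    exact hμ0 rfl
  refine ⟨(G b).totalDegree, fun a => ?_⟩
  have h7 : homogeneousComponent (G b).totalDegree (G a) = C m * G a := hμ a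
  have h8 : G a = C m⁻¹ * homogeneousComponent (G b).totalDegree (G a) := by
    rw [h7, ← mul_assoc, ← C_mul, inv_mul_cancel₀ h6, C_1, one_mul]
  rw [h8]
  have := (isHomogeneous_C σ m⁻¹).mul
    (homogeneousComponent_isHomogeneous (G b).totalDegree (G a))
  rwa [zero_add] at this

/-- top coefficients -/
theorem coeff_prod_le (h : σ → Polynomial k) (N : ℕ) (hN : ∀ s, (h s).natDegree ≤ N)
    (m : σ →₀ ℕ) : (m.prod fun s n => h s ^ n).natDegree ≤ m.degree * N ∧
      (m.prod fun s n => h s ^ n).coeff (m.degree * N) =
        m.prod fun s n => (h s).coeff N ^ n := by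
  classical
  induction m using Finsupp.induction_linear with
  | zero => simp
  | add m m' ih ih' =>
    rw [Finsupp.prod_add_index' (fun _ => pow_zero _) (fun _ _ _ => pow_add _ _ _),
      Finsupp.prod_add_index' (fun _ => pow_zero _) (fun _ _ _ => pow_add _ _ _), map_add, add_mul]
    refine ⟨(Polynomial.natDegree_mul_le).trans (add_le_add ih.1 ih'.1), ?_⟩
    rw [Polynomial.coeff_mul_add_eq_of_natDegree_le ih.1 ih'.1, ih.2, ih'.2]
  | single s n =>
    rw [Finsupp.prod_single_index (h := fun s n => h s ^ n) (pow_zero _),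
      Finsupp.prod_single_index (h := fun s n => (h s).coeff N ^ n) (pow_zero _),
      Finsupp.degree_single]
    refine ⟨Polynomial.natDegree_pow_le_of_le n (hN s), ?_⟩
    exact Polynomial.coeff_pow_of_natDegree_le (hN s)

theorem coeff_aeval {G : MvPolynomial σ k} {e : ℕ} (hG : G.IsHomogeneous e)
    (h : σ → Polynomial k) (N : ℕ) (hN : ∀ s, (h s).natDegree ≤ N) :
    (aeval h G).natDegree ≤ e * N ∧
      (aeval h G).coeff (e * N) = aeval (fun s => (h s).coeff N) G := by
  have key : aeval h G = ∑ m ∈ G.support, Polynomial.C (coeff m G) * m.prod fun s n => h s ^ n := by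
    conv_lhs => rw [G.as_sum, map_sum]
    refine Finset.sum_congr rfl fun m _ => ?_
    rw [aeval_monomial]
    rfl
  have hdeg : ∀ m ∈ G.support, m.degree = e := fun m hm =>
    hG.degree_eq_sum_deg_support hm ▸ rfl
  constructor
  · rw [key]
    apply Polynomial.natDegree_sum_le_of_forall_le
    intro m hm
    refine (Polynomial.natDegree_C_mul_le _ _).trans ?_
    rw [← hdeg m hm]
    exact (coeff_prod_le h N hN m).1
  · rw [key, Polynomial.finsetSum_coeff]
    conv_rhs => rw [G.as_sum, map_sum]
    refine Finset.sum_congr rfl fun m hm => ?_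
    rw [aeval_monomial, Polynomial.coeff_C_mul, ← hdeg m hm, (coeff_prod_le h N hN m).2]
    rfl

/-- linear forms are additive -/
theorem aeval_add_of_linear {G : MvPolynomial σ k} (hG : G.IsHomogeneous 1) (u v : σ → k) :
    aeval (fun s => u s + v s) G = aeval u G + aeval v G := by
  rw [G.as_sum, map_sum, map_sum, map_sum, ← Finset.sum_add_distrib]
  refine Finset.sum_congr rfl fun m hm => ?_
  have h1 : m.sum (fun _ n => n) = 1 := (hG.degree_eq_sum_deg_support hm).symm
  obtain ⟨s, rfl⟩ := (Finsupp.sum_eq_one_iff m).1 h1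
  rw [aeval_monomial, aeval_monomial, aeval_monomial,
    Finsupp.prod_single_index (h := fun i n => (u i + v i) ^ n) (pow_zero _),
    Finsupp.prod_single_index (h := fun i n => u i ^ n) (pow_zero _),
    Finsupp.prod_single_index (h := fun i n => v i ^ n) (pow_zero _)]
  ring

end poly

end Run7.h100.QT
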