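import Pool.Agent.Run7.h100.QT.Quad
import Pool.Agent.W488.Segre.Pts

/-!
Points of the projective scheme `V J` with values in a local ring as vectors up to scaling.
-/

open MvPolynomial AlgebraicGeometry CategoryTheory Limits TopologicalSpace
open Pool.Agent.Helper198.Sch Pool.Agent.W488.Segre

namespace Run7.h100.QT

attribute [local instance] MvPolynomial.gradedAlgebra

section pts

variable {σ : Type} {k : Type} [Field k]

/-- the morphism `f` has homogeneous coordinates `w` -/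
def IsPt (J : HI σ k) {E : Type} [CommRing E] [Algebra k E] (f : Spec (.of E) ⟶ V J)
    (w : σ → E) : Prop :=
  ∃ (c : σ) (α : Ch J c →+* E), IsUnit (w c) ∧
    (∀ r, α (algebraMap k _ r) = algebraMap k E r) ∧
    f = Spec.map (CommRingCat.ofHom α) ≫ V.chart J c ∧ ∀ a, w a = w c * α (frac J c a)

variable {J : HI σ k} {E : Type} [CommRing E] [Algebra k E]

theorem IsPt.smul {f : Spec (.of E) ⟶ V J} {w : σ → E} (h : IsPt J f w) {v : E} (hv : IsUnit v) :
    IsPt J f (fun a => v * w a) := by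
  obtain ⟨c, α, h1, h2, h3, h4⟩ := h
  refine ⟨c, α, hv.mul h1, h2, h3, fun a => ?_⟩
  change v * w a = v * w c * _
  rw [h4 a]
  ring

theorem IsPt.unique {f : Spec (.of E) ⟶ V J} {w w' : σ → E} (h : IsPt J f w)
    (h' : IsPt J f w') : ∃ v : E, IsUnit v ∧ ∀ a, w' a = v * w a := by
  obtain ⟨c, α, h1, h2, h3, h4⟩ := h
  obtain ⟨c', α', h1', h2', h3', h4'⟩ := h'
  have h5 := (pts_eq_imp J c' c α' α (h3'.symm.trans h3)).2
  have h6 := (pts_eq_imp J c c' α α' (h3.symm.trans h3')).2 c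
  rw [frac_self, map_one] at h6
  obtain ⟨z, hz⟩ := h1
  refine ⟨w' c' * α' (frac J c' c) * ((z⁻¹ : Eˣ) : E), ?_, fun a => ?_⟩
  · have h7 : IsUnit (α' (frac J c' c)) :=
      IsUnit.of_mul_eq_one (α (frac J c c')) (by rw [mul_comm]; exact h6.symm)
    exact (h1'.mul h7).mul (Units.isUnit _)
  · rw [h4' a, h5 a, h4 a, ← hz]
    have : ((z⁻¹ : Eˣ) : E) * (z : E) = 1 := Units.inv_mul z
    linear_combination (-(w' c' * α' (frac J c' c) * α (frac J c a))) * this

theorem IsPt.ext {f f' : Spec (.of E) ⟶ V J} {w : σ → E} (h : IsPt J f w)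
    (h' : IsPt J f' w) : f = f' := by
  obtain ⟨c, α, h1, h2, h3, h4⟩ := h
  obtain ⟨c', α', h1', h2', h3', h4'⟩ := h'
  rw [h3, h3']
  obtain ⟨z, hz⟩ := h1
  refine pts_eq_of J c c' α α' (fun r => by rw [h2, h2']) (((z⁻¹ : Eˣ) : E) * w c') (fun s => ?_)
  rw [mul_assoc, ← h4' s, h4 s, ← hz, ← mul_assoc, Units.inv_mul, one_mul]

theorem IsPt.map {E' : Type} [CommRing E'] [Algebra k E'] (θ : E →ₐ[k] E')
    {f : Spec (.of E) ⟶ V J} {w : σ → E} (h : IsPt J f w) :
    IsPt J (Spec.map (CommRingCat.ofHom (θ : E →+* E')) ≫ f) (fun a => θ (w a)) := by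
  obtain ⟨c, α, h1, h2, h3, h4⟩ := h
  refine ⟨c, (θ : E →+* E').comp α, h1.map θ, fun r => ?_, ?_, fun a => ?_⟩
  · rw [RingHom.comp_apply, h2]
    exact θ.commutes r
  · rw [h3, CommRingCat.ofHom_comp, Spec.map_comp, Category.assoc]
  · change θ (w a) = θ (w c) * θ (α (frac J c a))
    rw [h4 a, map_mul]

theorem IsPt.exists_of (w : σ → E) {c : σ} (hc : IsUnit (w c))
    (hJ : ∀ v : σ → E, (∃ z, ∀ a, v a = z * w a) → ∀ f ∈ J.toIdeal, aeval v f = 0) :
    ∃ f : Spec (.of E) ⟶ V J, IsPt J f w := by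
  obtain ⟨z, hz⟩ := hc
  let v : σ → E := fun a => ((z⁻¹ : Eˣ) : E) * w a
  have hv : v c = 1 := by
    change ((z⁻¹ : Eˣ) : E) * w c = 1
    rw [← hz]; exact Units.inv_mul z
  let α : Ch J c →ₐ[k] E := chLift J c v hv (hJ v ⟨_, fun a => rfl⟩)
  refine ⟨Spec.map (CommRingCat.ofHom (α : Ch J c →+* E)) ≫ V.chart J c, c, α, hz ▸ z.isUnit,
    fun r => α.commutes r, rfl, fun a => ?_⟩
  have h1 : (α : Ch J c →+* E) (frac J c a) = ((z⁻¹ : Eˣ) : E) * w a :=
    chLift_frac J c v hv (hJ v ⟨_, fun a => rfl⟩) a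
  rw [h1, ← hz, ← mul_assoc, Units.mul_inv, one_mul]

theorem IsPt.str {f : Spec (.of E) ⟶ V J} {w : σ → E} (h : IsPt J f w) :
    f ≫ V.str J = Spec.map (CommRingCat.ofHom (algebraMap k E)) := by
  obtain ⟨c, α, h1, h2, h3, h4⟩ := h
  rw [h3, Category.assoc, V.chart_str, ← Spec.map_comp, ← CommRingCat.ofHom_comp]
  congr 2
  ext r
  exact h2 r

theorem IsPt.exists_vec [IsLocalRing E] (f : Spec (.of E) ⟶ V J)
    (hf : f ≫ V.str J = Spec.map (CommRingCat.ofHom (algebraMap k E))) :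
    ∃ w : σ → E, IsPt J f w := by
  obtain ⟨c, hc⟩ := V.exists_mem_D J (f (IsLocalRing.closedPoint E))
  have hr : Set.range f ⊆ Set.range (V.chart J c) := by
    rintro _ ⟨y, rfl⟩
    rw [V.mem_range_chart]
    have h1 : y ⤳ IsLocalRing.closedPoint E := IsLocalRing.specializes_closedPoint y
    exact (h1.map f.continuous).mem_open (V.D J c).isOpen hc
  let q : Spec (.of E) ⟶ Spec (.of (Ch J c)) := IsOpenImmersion.lift (V.chart J c) f hr
  have hq : q ≫ V.chart J c = f := IsOpenImmersion.lift_fac _ _ _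
  let α : Ch J c →+* E := (Spec.preimage q).hom
  have hα : Spec.map (CommRingCat.ofHom α) = q := Spec.map_preimage q
  refine ⟨fun a => α (frac J c a), c, α, ?_, fun r => ?_, ?_, fun a => ?_⟩
  · change IsUnit (α (frac J c c))
    rw [frac_self, map_one]; exact isUnit_one
  · rw [← hq, ← hα, Category.assoc, V.chart_str, ← Spec.map_comp, ← CommRingCat.ofHom_comp] at hf
    have h1 := Spec.map_injective hf
    have h2 := congrArg (fun g => CommRingCat.Hom.hom g r) h1
    exact h2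
  · rw [hα, hq]
  · change α (frac J c a) = α (frac J c c) * α (frac J c a)
    rw [frac_self, map_one, one_mul]

theorem IsPt.exists_unit {f : Spec (.of E) ⟶ V J} {w : σ → E} (h : IsPt J f w) :
    ∃ c, IsUnit (w c) := by
  obtain ⟨c, α, h1, _⟩ := h
  exact ⟨c, h1⟩

end pts

section quad

variable {k : Type} [Field k] {E : Type} [CommRing E] [Algebra k E]

theorem IsPt.rel {f : Spec (.of E) ⟶ V (JQ k)} {w : Fin 5 → E} (h : IsPt (JQ k) f w) :
    w 0 * w 1 + w 2 * w 3 + w 4 ^ 2 = 0 := by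
  obtain ⟨c, α, h1, h2, h3, h4⟩ := h
  have h5 := congrArg α (frac_rel (R := k) c)
  rw [map_add, map_add, map_mul, map_mul, map_pow, map_zero] at h5
  rw [h4 0, h4 1, h4 2, h4 3, h4 4]
  linear_combination (w c) ^ 2 * h5

theorem IsPt.exists_quad (w : Fin 5 → E) {c : Fin 5} (hc : IsUnit (w c))
    (hr : w 0 * w 1 + w 2 * w 3 + w 4 ^ 2 = 0) :
    ∃ f : Spec (.of E) ⟶ V (JQ k), IsPt (JQ k) f w := by
  apply IsPt.exists_of w hc
  rintro v ⟨z, hz⟩
  apply aeval_JQ
  rw [hz, hz, hz, hz, hz]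
  linear_combination z ^ 2 * hr

theorem IsPt.exists_bot {σ : Type} (w : σ → E) {c : σ} (hc : IsUnit (w c)) :
    ∃ f : Spec (.of E) ⟶ V (⊥ : HI σ k), IsPt (⊥ : HI σ k) f w := by
  apply IsPt.exists_of w hc
  rintro v - f hf
  have : f = 0 := by simpa using hf
  rw [this, map_zero]

end quad

end Run7.h100.QT
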