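import Pool.Agent.Run7.h100.QT.IsPt
import Pool.Agent.Run7.h100.QT.Cop

/-!
Morphisms from projective space to a projective scheme are given by coprime forms.
-/

open MvPolynomial AlgebraicGeometry CategoryTheory Limits TopologicalSpace
open Pool.Agent.Helper198.Sch Pool.Agent.W488.Segre

namespace Run7.h100.QT

attribute [local instance] MvPolynomial.gradedAlgebra

section mor

variable {k : Type} [Field k] {σ τ : Type} [Finite σ] [Fintype τ] {J : HI τ k}

theorem exists_forms (s0 : σ) (ψ : V (⊥ : HI σ k) ⟶ V J)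
    (hψ : ψ ≫ V.str J = V.str (⊥ : HI σ k)) :
    ∃ G : τ → MvPolynomial σ k, Cop G ∧
      ∀ (F : Type) [Field F] [Algebra k F] (u : σ → F) (f : Spec (.of F) ⟶ V (⊥ : HI σ k)),
        IsPt (⊥ : HI σ k) f u → IsPt J (f ≫ ψ) (fun a => aeval u (G a)) := by
  classical
  let B := MvPolynomial σ k
  let F0 := FractionRing B
  have hX0 : IsUnit (algebraMap B F0 (X s0)) := by
    rw [isUnit_iff_ne_zero]
    intro h
    have := (IsFractionRing.injective B F0) (h.trans (map_zero _).symm)
    exact X_ne_zero s0 this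
  obtain ⟨f0, hf0⟩ := IsPt.exists_bot (k := k) (E := F0) (fun a : σ => algebraMap B F0 (X a)) hX0
  obtain ⟨w, hw⟩ := IsPt.exists_vec (f0 ≫ ψ) (by rw [Category.assoc, hψ, hf0.str])
  obtain ⟨c0, hc0⟩ := hw.exists_unit
  obtain ⟨v, G, hv, hG, hvG⟩ := exists_cop (B := B) w hc0.ne_zero
  have hw2 : IsPt J (f0 ≫ ψ) (fun a => algebraMap B F0 (G a)) := by
    have := hw.smul (isUnit_iff_ne_zero.2 hv)
    have e : (fun a => v * w a) = fun a => algebraMap B F0 (G a) := by
      ext a; rw [hvG]
    rwa [e] at this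
  refine ⟨G, hG, ?_⟩
  intro F _ _ u f hf
  let p : Ideal B := RingHom.ker (aeval u : B →ₐ[k] F)
  have hp : p.IsPrime := RingHom.ker_isPrime _
  have hmem : ∀ b : B, b ∈ p ↔ aeval u b = 0 := fun b => RingHom.mem_ker
  let Bp := Localization.AtPrime p
  let θ2 : Bp →ₐ[k] F := IsLocalization.liftAlgHom (M := p.primeCompl) (f := (aeval u : B →ₐ[k] F))
    (fun y => isUnit_iff_ne_zero.2 fun h => y.2 ((hmem _).2 h))
  have hθ2 : ∀ b : B, θ2 (algebraMap B Bp b) = aeval u b := fun b => IsLocalization.lift_eq _ b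
  let θ1 : Bp →ₐ[k] F0 := IsLocalization.liftAlgHom (M := p.primeCompl)
    (f := IsScalarTower.toAlgHom k B F0)
    (fun y => isUnit_iff_ne_zero.2 fun h => y.2 (by
      have h1 : algebraMap B F0 y = 0 := h
      have h2 := (IsFractionRing.injective B F0) (h1.trans (map_zero _).symm)
      rw [h2]; exact p.zero_mem))
  have hθ1 : ∀ b : B, θ1 (algebraMap B Bp b) = algebraMap B F0 b :=
    fun b => IsLocalization.lift_eq _ b
  have hinj : Function.Injective θ1 := by
    rw [injective_iff_map_eq_zero]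
    intro x hx
    obtain ⟨b, s, rfl⟩ := IsLocalization.exists_mk'_eq p.primeCompl x
    have h1 := congrArg θ1 (IsLocalization.mk'_spec Bp b s)
    rw [map_mul, hx, zero_mul, hθ1] at h1
    have h2 := (IsFractionRing.injective B F0) (h1.symm.trans (map_zero _).symm)
    rw [h2, IsLocalization.mk'_zero]
  obtain ⟨d, hd⟩ := hf.exists_unit
  have hXd : IsUnit (algebraMap B Bp (X d)) := by
    apply IsLocalization.map_units Bp (⟨X d, fun h => ?_⟩ : p.primeCompl)
    have h1 := (hmem _).1 h
    rw [aeval_X] at h1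
    exact hd.ne_zero h1
  obtain ⟨f1, hf1⟩ := IsPt.exists_bot (k := k) (E := Bp) (fun a : σ => algebraMap B Bp (X a)) hXd
  obtain ⟨w1, hw1⟩ := IsPt.exists_vec (f1 ≫ ψ) (by rw [Category.assoc, hψ, hf1.str])
  have e1 : Spec.map (CommRingCat.ofHom (θ1 : Bp →+* F0)) ≫ f1 = f0 := by
    have h1 := hf1.map θ1
    have e : (fun a : σ => θ1 (algebraMap B Bp (X a))) = fun a => algebraMap B F0 (X a) := by
      ext a; rw [hθ1]
    rw [e] at h1
    exact h1.ext hf0
  have h2 := hw1.map θ1
  rw [← Category.assoc, e1] at h2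
  obtain ⟨z, hz, hzG⟩ := h2.unique hw2
  obtain ⟨a', ha'⟩ := hw1.exists_unit
  have hrel : ∀ a, algebraMap B Bp (G a) * w1 a' = algebraMap B Bp (G a') * w1 a := by
    intro a
    apply hinj
    rw [map_mul, map_mul, hθ1, hθ1, hzG, hzG]
    ring
  have hnot : G a' ∉ p := by
    have hex : ∀ a, ∃ (h : B) (t : p.primeCompl), w1 a * algebraMap B Bp t = algebraMap B Bp h := by
      intro a
      obtain ⟨b, s, hb⟩ := IsLocalization.exists_mk'_eq p.primeCompl (w1 a)
      exact ⟨b, s, by rw [← hb]; exact IsLocalization.mk'_spec Bp b s⟩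
    choose h t ht using hex
    have hinj2 : Function.Injective (algebraMap B Bp) := by
      intro x y hxy
      have := congrArg θ1 hxy
      rw [hθ1, hθ1] at this
      exact (IsFractionRing.injective B F0) this
    have hdiv : ∀ a, G a' ∣ (h a' * ∏ b, (t b : B)) * G a := by
      intro a
      have h3 : G a * (h a' * (t a : B)) = G a' * (h a * (t a' : B)) := by
        apply hinj2
        rw [map_mul, map_mul, map_mul, map_mul, ← ht, ← ht]
        linear_combination (algebraMap B Bp (t a') * algebraMap B Bp (t a)) * hrel a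
      obtain ⟨q, hq⟩ : (t a : B) ∣ ∏ b, (t b : B) := Finset.dvd_prod_of_mem _ (Finset.mem_univ a)
      refine ⟨h a * (t a' : B) * q, ?_⟩
      rw [hq]
      linear_combination q * h3
    have h4 := hG.dvd hdiv
    intro h5
    obtain ⟨q, hq⟩ := h4
    have h6 : h a' * ∏ b, (t b : B) ∈ p := by
      rw [hq]; exact p.mul_mem_right _ h5
    rcases hp.mem_or_mem h6 with h7 | h7
    · have h8 : IsUnit (algebraMap B Bp (h a')) := by
        rw [← ht]
        exact ha'.mul (IsLocalization.map_units Bp (t a'))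
      have h9 := h8.map θ2
      rw [hθ2, (hmem _).1 h7] at h9
      exact not_isUnit_zero h9
    · obtain ⟨b, -, hb⟩ := (hp.prod_mem_iff).1 h7
      exact (t b).2 hb
  have hunit : IsUnit (algebraMap B Bp (G a')) :=
    IsLocalization.map_units Bp (⟨G a', hnot⟩ : p.primeCompl)
  obtain ⟨y, hy⟩ := ha'
  have h3 := hw1.smul (hunit.mul (y⁻¹).isUnit)
  have e3 : (fun a => algebraMap B Bp (G a') * ((y⁻¹ : Bpˣ) : Bp) * w1 a) =
      fun a => algebraMap B Bp (G a) := by
    ext a
    have h4 := hrel a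
    rw [← hy] at h4
    have h5 : (y : Bp) * ((y⁻¹ : Bpˣ) : Bp) = 1 := Units.mul_inv y
    linear_combination (-((y⁻¹ : Bpˣ) : Bp)) * h4 + algebraMap B Bp (G a) * h5
  rw [e3] at h3
  have h4 := h3.map θ2
  have e4 : Spec.map (CommRingCat.ofHom (θ2 : Bp →+* F)) ≫ f1 = f := by
    have h1 := hf1.map θ2
    have e : (fun a : σ => θ2 (algebraMap B Bp (X a))) = u := by
      ext a; rw [hθ2, aeval_X]
    rw [e] at h1
    exact h1.ext hf
  rw [← Category.assoc, e4] at h4
  have e5 : (fun a => θ2 (algebraMap B Bp (G a))) = fun a => aeval u (G a) := by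
    ext a; rw [hθ2]
  rw [e5] at h4
  exact h4

end mor

end Run7.h100.QT
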