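import Pool.Agent.Helper198.SchP
import Pool.Agent.W488.Segre.Final

/-!
The quadric threefold `x_0 x_1 + x_2 x_3 + x_4 ^ 2 = 0`.
-/

open MvPolynomial AlgebraicGeometry CategoryTheory Limits TopologicalSpace
open Pool.Agent.Helper198.Sch

namespace Run7.h100.QT

attribute [local instance] MvPolynomial.gradedAlgebra

section ring

variable (R : Type) [CommRing R]

/-- the quadratic form -/
noncomputable def qf : MvPolynomial (Fin 5) R := X 0 * X 1 + X 2 * X 3 + X 4 ^ 2

theorem qf_hom : (qf R).IsHomogeneous 2 := by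
  unfold qf
  exact (((isHomogeneous_X R 0).mul (isHomogeneous_X R 1)).add
    ((isHomogeneous_X R 2).mul (isHomogeneous_X R 3))).add ((isHomogeneous_X R 4).pow 2)

/-- the ideal of the quadric -/
noncomputable def JQ : HI (Fin 5) R :=
  HI.ofSet {qf R} (by rintro f rfl; exact ⟨2, qf_hom R⟩)

variable {R}

theorem qf_mem : qf R ∈ (JQ R).toIdeal := mem_ofSet rfl

theorem aeval_qf {E : Type*} [CommRing E] [Algebra R E] (u : Fin 5 → E) :
    aeval u (qf R) = u 0 * u 1 + u 2 * u 3 + u 4 ^ 2 := by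
  simp [qf]

theorem aeval_JQ {E : Type*} [CommRing E] [Algebra R E] (u : Fin 5 → E)
    (h : u 0 * u 1 + u 2 * u 3 + u 4 ^ 2 = 0) : ∀ f ∈ (JQ R).toIdeal, aeval u f = 0 :=
  aeval_ofSet u (by
    rintro f rfl
    rw [aeval_qf, h])

theorem frac_rel (c : Fin 5) : frac (JQ R) c 0 * frac (JQ R) c 1 +
    frac (JQ R) c 2 * frac (JQ R) c 3 + frac (JQ R) c 4 ^ 2 = 0 := by
  rw [← aeval_qf (R := R)]
  exact aeval_frac_eq_zero (JQ R) c (qf R) qf_mem

variable (R)

/-- the index of the chart -/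
def ci (c : Fin 4) : Fin 5 := c.castSucc

/-- coordinates in a chart -/
noncomputable def uQ (c : Fin 4) : Fin 5 → MvPolynomial (Fin 3) R :=
  match c with
  | 0 => ![1, -(X 0 * X 1 + X 2 ^ 2), X 0, X 1, X 2]
  | 1 => ![-(X 0 * X 1 + X 2 ^ 2), 1, X 0, X 1, X 2]
  | 2 => ![X 0, X 1, 1, -(X 0 * X 1 + X 2 ^ 2), X 2]
  | 3 => ![X 0, X 1, -(X 0 * X 1 + X 2 ^ 2), 1, X 2]

/-- the free coordinates of a chart -/
def fr (c : Fin 4) : Fin 3 → Fin 5 :=
  match c with
  | 0 => ![2, 3, 4]
  | 1 => ![2, 3, 4]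
  | 2 => ![0, 1, 4]
  | 3 => ![0, 1, 4]

theorem uQ_self (c : Fin 4) : uQ R c (ci c) = 1 := by
  fin_cases c <;> rfl

theorem uQ_fr (c : Fin 4) (i : Fin 3) : uQ R c (fr c i) = X i := by
  fin_cases c <;> fin_cases i <;> rfl

theorem uQ_rel (c : Fin 4) : uQ R c 0 * uQ R c 1 + uQ R c 2 * uQ R c 3 + uQ R c 4 ^ 2 = 0 := by
  fin_cases c
  · change (1 : MvPolynomial (Fin 3) R) * (-(X 0 * X 1 + X 2 ^ 2)) + X 0 * X 1 + X 2 ^ 2 = 0
    ring
  · change (-(X 0 * X 1 + X 2 ^ 2) : MvPolynomial (Fin 3) R) * 1 + X 0 * X 1 + X 2 ^ 2 = 0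
    ring
  · change (X 0 * X 1 : MvPolynomial (Fin 3) R) + 1 * (-(X 0 * X 1 + X 2 ^ 2)) + X 2 ^ 2 = 0
    ring
  · change (X 0 * X 1 : MvPolynomial (Fin 3) R) + (-(X 0 * X 1 + X 2 ^ 2)) * 1 + X 2 ^ 2 = 0
    ring

/-- the chart is an affine space -/
noncomputable def chTo (c : Fin 4) : Ch (JQ R) (ci c) →ₐ[R] MvPolynomial (Fin 3) R :=
  chLift (JQ R) (ci c) (uQ R c) (uQ_self R c) (aeval_JQ _ (uQ_rel R c))

theorem chTo_frac (c : Fin 4) (a : Fin 5) : chTo R c (frac (JQ R) (ci c) a) = uQ R c a :=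
  chLift_frac _ _ _ _ _ _

/-- the inverse -/
noncomputable def chFrom (c : Fin 4) : MvPolynomial (Fin 3) R →ₐ[R] Ch (JQ R) (ci c) :=
  aeval fun i => frac (JQ R) (ci c) (fr c i)

theorem chFrom_X (c : Fin 4) (i : Fin 3) :
    chFrom R c (X i) = frac (JQ R) (ci c) (fr c i) := aeval_X _ _

theorem aeval_uQ {E : Type*} [CommRing E] [Algebra R E] (c : Fin 4) (v : Fin 5 → E)
    (h1 : v (ci c) = 1) (h : v 0 * v 1 + v 2 * v 3 + v 4 ^ 2 = 0) (a : Fin 5) :
    aeval (fun i => v (fr c i)) (uQ R c a) = v a := by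
  have key : ∀ x y z : E, aeval (![x, y, z] : Fin 3 → E)
      (-(X 0 * X 1 + X 2 ^ 2) : MvPolynomial (Fin 3) R) = -(x * y + z ^ 2) := by
    intro x y z
    simp
  fin_cases c
  · have e : (fun i => v (fr 0 i)) = (![v 2, v 3, v 4] : Fin 3 → E) := by
      ext i; fin_cases i <;> rfl
    change aeval (fun i => v (fr 0 i)) _ = _
    rw [e]
    have h1' : v 0 = 1 := h1
    fin_cases a
    · change aeval (![v 2, v 3, v 4] : Fin 3 → E) (1 : MvPolynomial (Fin 3) R) = v 0
      rw [map_one, h1']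
    · change aeval (![v 2, v 3, v 4] : Fin 3 → E)
        (-(X 0 * X 1 + X 2 ^ 2) : MvPolynomial (Fin 3) R) = v 1
      rw [key]
      rw [h1'] at h
      linear_combination -h
    · exact aeval_X _ _
    · exact aeval_X _ _
    · exact aeval_X _ _
  · have e : (fun i => v (fr 1 i)) = (![v 2, v 3, v 4] : Fin 3 → E) := by
      ext i; fin_cases i <;> rfl
    change aeval (fun i => v (fr 1 i)) _ = _
    rw [e]
    have h1' : v 1 = 1 := h1
    fin_cases a
    · change aeval (![v 2, v 3, v 4] : Fin 3 → E)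
        (-(X 0 * X 1 + X 2 ^ 2) : MvPolynomial (Fin 3) R) = v 0
      rw [key]
      rw [h1'] at h
      linear_combination -h
    · change aeval (![v 2, v 3, v 4] : Fin 3 → E) (1 : MvPolynomial (Fin 3) R) = v 1
      rw [map_one, h1']
    · exact aeval_X _ _
    · exact aeval_X _ _
    · exact aeval_X _ _
  · have e : (fun i => v (fr 2 i)) = (![v 0, v 1, v 4] : Fin 3 → E) := by
      ext i; fin_cases i <;> rfl
    change aeval (fun i => v (fr 2 i)) _ = _
    rw [e]
    have h1' : v 2 = 1 := h1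
    fin_cases a
    · exact aeval_X _ _
    · exact aeval_X _ _
    · change aeval (![v 0, v 1, v 4] : Fin 3 → E) (1 : MvPolynomial (Fin 3) R) = v 2
      rw [map_one, h1']
    · change aeval (![v 0, v 1, v 4] : Fin 3 → E)
        (-(X 0 * X 1 + X 2 ^ 2) : MvPolynomial (Fin 3) R) = v 3
      rw [key]
      rw [h1'] at h
      linear_combination -h
    · exact aeval_X _ _
  · have e : (fun i => v (fr 3 i)) = (![v 0, v 1, v 4] : Fin 3 → E) := by
      ext i; fin_cases i <;> rfl
    change aeval (fun i => v (fr 3 i)) _ = _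
    rw [e]
    have h1' : v 3 = 1 := h1
    fin_cases a
    · exact aeval_X _ _
    · exact aeval_X _ _
    · change aeval (![v 0, v 1, v 4] : Fin 3 → E)
        (-(X 0 * X 1 + X 2 ^ 2) : MvPolynomial (Fin 3) R) = v 2
      rw [key]
      rw [h1'] at h
      linear_combination -h
    · change aeval (![v 0, v 1, v 4] : Fin 3 → E) (1 : MvPolynomial (Fin 3) R) = v 3
      rw [map_one, h1']
    · exact aeval_X _ _

theorem chFrom_uQ (c : Fin 4) (a : Fin 5) :
    chFrom R c (uQ R c a) = frac (JQ R) (ci c) a :=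
  aeval_uQ R c (frac (JQ R) (ci c)) (frac_self _ _) (frac_rel _) a

/-- the chart ring is a polynomial ring -/
noncomputable def chEquiv (c : Fin 4) : Ch (JQ R) (ci c) ≃ₐ[R] MvPolynomial (Fin 3) R :=
  AlgEquiv.ofAlgHom (chTo R c) (chFrom R c)
    (by
      apply MvPolynomial.algHom_ext
      intro i
      rw [AlgHom.comp_apply, chFrom_X, chTo_frac, uQ_fr]
      rfl)
    (by
      apply ch_algHom_ext
      intro a
      rw [AlgHom.comp_apply, chTo_frac, chFrom_uQ]
      rfl)

theorem chEquiv_frac (c : Fin 4) (a : Fin 5) :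
    chEquiv R c (frac (JQ R) (ci c) a) = uQ R c a := chTo_frac R c a

theorem chEquiv_symm_X (c : Fin 4) (i : Fin 3) :
    (chEquiv R c).symm (X i) = frac (JQ R) (ci c) (fr c i) := chFrom_X R c i

end ring

section smooth

variable (k : Type) [Field k]

/-- no equations -/
noncomputable def noEq : Empty → MvPolynomial (Fin 3) k := fun e => e.elim

/-- the presentation of the polynomial ring without equations -/
noncomputable def presE : Algebra.PreSubmersivePresentation k
    (MvPolynomial (Fin 3) k ⧸ Ideal.span (Set.range (noEq k))) (Fin 3) Empty :=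
  Algebra.PreSubmersivePresentation.naive (v := noEq k) (fun e => e.elim) (fun e => e.elim)

theorem smooth_quot : Algebra.IsStandardSmoothOfRelativeDimension 3 k
    (MvPolynomial (Fin 3) k ⧸ Ideal.span (Set.range (noEq k))) := by
  let P : Algebra.SubmersivePresentation k
      (MvPolynomial (Fin 3) k ⧸ Ideal.span (Set.range (noEq k))) (Fin 3) Empty :=
    { presE k with
      jacobian_isUnit := by
        have h : (presE k).jacobian = 1 := by
          rw [Algebra.PreSubmersivePresentation.jacobian_eq_jacobiMatrix_det,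
            Matrix.det_isEmpty, map_one]
        exact h ▸ isUnit_one }
  apply P.isStandardSmoothOfRelativeDimension
  simp [Algebra.Presentation.dimension]

theorem smooth_poly : Algebra.IsStandardSmoothOfRelativeDimension 3 k (MvPolynomial (Fin 3) k) := by
  have h := smooth_quot k
  have e : Ideal.span (Set.range (noEq k)) = ⊥ := by
    rw [Set.range_eq_empty, Ideal.span_empty]
  exact Algebra.IsStandardSmoothOfRelativeDimension.of_algEquiv 3
    ((Ideal.quotientEquivAlgOfEq k e).trans (AlgEquiv.quotientBot k _))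

end smooth

section geometry

variable (k : Type) [Field k]

/-- the quadric -/
noncomputable abbrev Qd : Scheme.{0} := V (JQ k)

/-- the structure morphism -/
noncomputable abbrev Qs : Qd k ⟶ Spec (.of k) := V.str (JQ k)

theorem exists_ci (x : Qd k) : ∃ c : Fin 4, x ∈ V.D (JQ k) (ci c) := by
  by_contra hcon
  push Not at hcon
  obtain ⟨a, ha⟩ := V.exists_mem_D (JQ k) x
  have ha4 : a = 4 := by
    by_contra hne
    have : a.val < 4 := by
      have := a.isLt
      have h2 : a.val ≠ 4 := fun h => hne (Fin.ext h)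
      omega
    apply hcon ⟨a.val, this⟩
    have : ci ⟨a.val, this⟩ = a := Fin.ext rfl
    rw [this]; exact ha
  subst ha4
  obtain ⟨y, rfl⟩ := (V.mem_range_chart (JQ k) 4 x).2 ha
  have h1 : ∀ c : Fin 4, frac (JQ k) 4 (ci c) ∈ y.asIdeal := by
    intro c
    by_contra hc
    exact hcon c ((V.chart_mem_D (JQ k) 4 (ci c) y).2 hc)
  have h2 := frac_rel (R := k) 4
  rw [frac_self] at h2
  apply y.isPrime.ne_top
  rw [Ideal.eq_top_iff_one]
  have h3 : (1 : Ch (JQ k) 4) = -(frac (JQ k) 4 (ci 0) * frac (JQ k) 4 (ci 1) +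
      frac (JQ k) 4 (ci 2) * frac (JQ k) 4 (ci 3)) := by
    have e : frac (JQ k) 4 (ci 0) * frac (JQ k) 4 (ci 1) +
      frac (JQ k) 4 (ci 2) * frac (JQ k) 4 (ci 3) = frac (JQ k) 4 0 * frac (JQ k) 4 1 +
      frac (JQ k) 4 2 * frac (JQ k) 4 3 := rfl
    rw [e]
    linear_combination h2
  rw [h3]
  exact neg_mem (add_mem (Ideal.mul_mem_right _ _ (h1 0)) (Ideal.mul_mem_right _ _ (h1 2)))

set_option backward.isDefEq.respectTransparency.types false in
theorem smooth_Q : SmoothOfRelativeDimension 3 (Qs k) := by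
  apply IsZariskiLocalAtSource.of_openCover
    (V.coverOf (JQ k) ci (exists_ci k)).openCover
  intro (c : Fin 4)
  change SmoothOfRelativeDimension 3 (V.chart (JQ k) (ci c) ≫ V.str (JQ k))
  rw [V.chart_str, HasRingHomProperty.Spec_iff (P := @SmoothOfRelativeDimension 3)]
  apply RingHom.locally_of
  · exact RingHom.isStandardSmoothOfRelativeDimension_respectsIso
  · have h1 := smooth_poly k
    have h2 : Algebra.IsStandardSmoothOfRelativeDimension 3 k (Ch (JQ k) (ci c)) :=
      Algebra.IsStandardSmoothOfRelativeDimension.of_algEquiv 3 (chEquiv k c).symm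
    exact (RingHom.isStandardSmoothOfRelativeDimension_algebraMap 3).2 h2

instance isDomain_ch (c : Fin 4) : IsDomain (Ch (JQ k) (ci c)) :=
  (chEquiv k c).toMulEquiv.isDomain _

end geometry

end Run7.h100.QT
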