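import Pool.Agent.Run7.h100.QT.Geo
import Pool.Agent.W488.Segre.Pts

/-!
Functions on the charts of a projective scheme and the sheaf `O(1)`.
-/

open MvPolynomial AlgebraicGeometry CategoryTheory Limits TopologicalSpace
open Pool.Agent.Helper198.Sch Pool.Agent.Helper198.CurveFamily Pool.Agent.W488.Segre

namespace Run7.h100.QT

attribute [local instance] MvPolynomial.gradedAlgebra

section general

variable {σ : Type} {R : Type} [CommRing R] (J : HI σ R)

/-- the functions of the chart -/
noncomputable def sec (c : σ) : Ch J c →+* Fn (V J) (V.D J c) :=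
  (Proj.awayToSection (qgrad J.toIdeal) (gen J c)).hom

theorem sec_bijective (c : σ) : Function.Bijective (sec J c) := by
  have h : IsIso (Proj.awayToSection (qgrad J.toIdeal) (gen J c)) := by
    rw [← Proj.basicOpenIsoAway_hom (qgrad J.toIdeal) (gen J c) (gen_mem J c) one_pos]
    infer_instance
  exact ConcreteCategory.bijective_of_isIso (Proj.awayToSection (qgrad J.toIdeal) (gen J c))

/-- the intersection of two charts -/
noncomputable def D2 (c c' : σ) : (V J).Opens :=
  Proj.basicOpen (qgrad J.toIdeal) (gen J c * gen J c')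

theorem le_D2 {c c' : σ} {W : (V J).Opens} (h : W ≤ V.D J c) (h' : W ≤ V.D J c') :
    W ≤ D2 J c c' := by
  unfold D2
  rw [Proj.basicOpen_mul]
  exact le_inf h h'

theorem D2_le (c c' : σ) : D2 J c c' ≤ V.D J c := Proj.basicOpen_mono _ _ _ ⟨_, rfl⟩

theorem D2_le' (c c' : σ) : D2 J c c' ≤ V.D J c' := Proj.basicOpen_mono _ _ _ ⟨_, mul_comm _ _⟩

/-- the functions on the intersection of two charts -/
noncomputable def sec2 (c c' : σ) : Ch2 J c c' →+* Fn (V J) (D2 J c c') :=
  (Proj.awayToSection (qgrad J.toIdeal) (gen J c * gen J c')).hom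

theorem sec_i1 (c c' : σ) (z : Ch J c) :
    sec2 J c c' (i1 J c c' z) = rs (D2_le J c c') (sec J c z) := by
  have h := Proj.awayMap_awayToSection (qgrad J.toIdeal) (f := gen J c) (gen_mem J c')
    (x := gen J c * gen J c') rfl
  have h2 := congrArg (fun f => CommRingCat.Hom.hom f z) h
  exact h2

theorem sec_i2 (c c' : σ) (z : Ch J c') :
    sec2 J c c' (i2 J c c' z) = rs (D2_le' J c c') (sec J c' z) := by
  have h := Proj.awayMap_awayToSection (qgrad J.toIdeal) (f := gen J c') (gen_mem J c)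
    (x := gen J c * gen J c') (mul_comm _ _)
  have h2 := congrArg (fun f => CommRingCat.Hom.hom f z) h
  exact h2

theorem sec_frac {c c' : σ} (a : σ) {W : (V J).Opens} (h : W ≤ V.D J c) (h' : W ≤ V.D J c') :
    rs h (sec J c (frac J c a)) = rs h (sec J c (frac J c c')) * rs h' (sec J c' (frac J c' a)) := by
  have e1 : ∀ z, rs h (sec J c z) = rs (le_D2 J h h') (sec2 J c c' (i1 J c c' z)) := by
    intro z
    rw [sec_i1, rs_rs]
  have e2 : ∀ z, rs h' (sec J c' z) = rs (le_D2 J h h') (sec2 J c c' (i2 J c c' z)) := by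
    intro z
    rw [sec_i2, rs_rs]
  rw [e1, e1, e2, ← map_mul, ← map_mul, ← i12_frac]

theorem sec_alg {c c' : σ} (r : R) {W : (V J).Opens} (h : W ≤ V.D J c) (h' : W ≤ V.D J c') :
    rs h (sec J c (algebraMap R _ r)) = rs h' (sec J c' (algebraMap R _ r)) := by
  have e1 : ∀ z, rs h (sec J c z) = rs (le_D2 J h h') (sec2 J c c' (i1 J c c' z)) := by
    intro z
    rw [sec_i1, rs_rs]
  have e2 : ∀ z, rs h' (sec J c' z) = rs (le_D2 J h h') (sec2 J c c' (i2 J c c' z)) := by
    intro z
    rw [sec_i2, rs_rs]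
  rw [e1, e2, i12_alg]

theorem basicOpen_sec_le (c a : σ) : (V J).basicOpen (sec J c (frac J c a)) ≤ V.D J a := by
  intro x hx
  have hxc : x ∈ V.D J c := (V J).basicOpen_le _ hx
  rw [Scheme.mem_basicOpen _ _ _ hxc] at hx
  have h1 := ProjectiveSpectrum.Proj.awayToSection_germ (qgrad J.toIdeal) (gen J c) x hxc
  have h2 := congrArg (fun f => CommRingCat.Hom.hom f (frac J c a)) h1
  have hc0 : gen J c ∈ x.asHomogeneousIdeal.toIdeal.primeCompl := hxc
  have hle : Submonoid.powers (gen J c) ≤ x.asHomogeneousIdeal.toIdeal.primeCompl :=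
    Submonoid.powers_le.mpr hc0
  have h3 : (Proj.stalkIso' (qgrad J.toIdeal) x).symm
    (HomogeneousLocalization.mapId (qgrad J.toIdeal) hle (frac J c a)) =
    ((V J).presheaf.germ (V.D J c) x hxc).hom (sec J c (frac J c a)) := h2.symm
  rw [← h3] at hx
  have h4 : IsUnit (HomogeneousLocalization.mapId (qgrad J.toIdeal) hle (frac J c a)) := by
    exact (MulEquiv.isUnit_map (Proj.stalkIso' (qgrad J.toIdeal) x).symm).1 hx
  have h5 : (HomogeneousLocalization.mapId (qgrad J.toIdeal) hle (frac J c a)).val =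
      Localization.mk (gen J a) (⟨gen J c ^ 1, hle ⟨1, rfl⟩⟩ :
        x.asHomogeneousIdeal.toIdeal.primeCompl) := rfl
  have h6 : IsUnit (Localization.mk (gen J a) (⟨gen J c ^ 1, hle ⟨1, rfl⟩⟩ :
        x.asHomogeneousIdeal.toIdeal.primeCompl)) := by
    rw [← h5]
    exact (HomogeneousLocalization.isUnit_iff_isUnit_val _ _ _).2 h4
  rw [Localization.mk_eq_mk', IsLocalization.AtPrime.isUnit_mk'_iff] at h6
  exact h6

end general

end Run7.h100.QT
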