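import Pool.Agent.Run7.h100.QT.Twist
import Pool.Agent.H563R2.Deriv

/-!
The sheaf `O(1)` on the quadric threefold in characteristic two and its map to the tangent sheaf.
-/

open MvPolynomial AlgebraicGeometry CategoryTheory Limits TopologicalSpace
open Pool.Agent.Helper198.Sch Pool.Agent.Helper198.CurveFamily Pool.Agent.W488.Segre

namespace Run7.h100.QT

attribute [local instance] MvPolynomial.gradedAlgebra

section bundle

variable (k : Type) [Field k]

/-- functions of the chart -/
noncomputable abbrev sc (c : Fin 5) : Ch (JQ k) c →+* Fn (Qd k) (V.D (JQ k) c) := sec (JQ k) c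

/-- coordinates -/
noncomputable abbrev fq (c a : Fin 5) : Ch (JQ k) c := frac (JQ k) c a

/-- the line bundle `O(1)` -/
noncomputable def O1 : LB (Qd k) where
  ι := Fin 4
  U c := V.D (JQ k) (ci c)
  cov := exists_ci k
  g c c' := rs inf_le_left (sc k (ci c) (fq k (ci c) (ci c')))
  g_self c := by rw [fq, frac_self, map_one, map_one]
  g_mul i j l W hi hj hl := by
    rw [rs_rs, rs_rs, rs_rs]
    exact (sec_frac (JQ k) (ci l) hi hj).symm

/-- the section `x_a` of `O(1)` -/
noncomputable def xs (a : Fin 5) : (O1 k).Sec 1 ⊤ where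
  s c := rs inf_le_right (sc k (ci c) (fq k (ci c) a))
  compat i j W hV hi hj := by
    change rs _ (rs _ (sc k (ci i) (fq k (ci i) a))) =
      (rs _ (rs _ (sc k (ci i) (fq k (ci i) (ci j))))) ^ 1 *
        rs _ (rs _ (sc k (ci j) (fq k (ci j) a)))
    rw [pow_one, rs_rs, rs_rs, rs_rs]
    exact sec_frac (JQ k) a hi hj

theorem basicOpen_rs {X : Scheme.{0}} {U W : X.Opens} (h : W ≤ U) (f : Fn X U) :
    X.basicOpen (rs h f) = W ⊓ X.basicOpen f := X.basicOpen_res f (homOfLE h).op

theorem basicOpen_one' {X : Scheme.{0}} (U : X.Opens) : X.basicOpen (1 : Fn X U) = U :=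
  X.basicOpen_one

theorem basicOpen_zero' {X : Scheme.{0}} (U : X.Opens) : X.basicOpen (0 : Fn X U) = ⊥ :=
  X.basicOpen_zero U

theorem nonvan_xs (a : Fin 4) : (xs k (ci a)).nonvan = V.D (JQ k) (ci a) := by
  apply le_antisymm
  · unfold LB.Sec.nonvan
    apply iSup_le
    intro c
    change (Qd k).basicOpen (rs _ (sc k (ci c) (fq k (ci c) (ci a)))) ≤ _
    rw [basicOpen_rs]
    exact inf_le_right.trans (basicOpen_sec_le (JQ k) (ci c) (ci a))
  · refine le_trans ?_ (le_iSup _ a)
    change _ ≤ (Qd k).basicOpen (rs _ (sc k (ci a) (fq k (ci a) (ci a))))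
    rw [basicOpen_rs, fq, frac_self, map_one, basicOpen_one']
    exact le_inf (le_inf le_top le_rfl) le_rfl

theorem isAffine_D (c : Fin 5) : IsAffineOpen (V.D (JQ k) c) :=
  Proj.isAffineOpen_basicOpen (qgrad (JQ k).toIdeal) (gen (JQ k) c) (gen_mem (JQ k) c) one_pos

theorem O1_ample : (O1 k).IsAmple := by
  refine ⟨inferInstance, fun x => ?_⟩
  obtain ⟨c, hc⟩ := exists_ci k x
  refine ⟨1, le_rfl, xs k (ci c), ?_, ?_⟩
  · rw [nonvan_xs]; exact hc
  · rw [nonvan_xs]; exact isAffine_D k (ci c)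

end bundle

end Run7.h100.QT
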